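import Pool.Agent.Helper85.BM.Cond

/-!
# Amalgamation

`Up q x` is the set of points `x` and all `y` above `x` in `q`.
-/

namespace Pool.Agent.Helper85.BM

variable {Λ : Type} [LinearOrder Λ]

/-- `y` is `x` or above `x` in the condition `q`. -/
def Up (q : Cond Λ) (x y : Λ × ℕ) : Prop := y = x ∨ q.R x y

/-- `x` is separated in `q`: at some coordinate all points which are not `x` or above `x` have a
smaller value than `x`. -/
def Separated (q : Cond Λ) (x : Λ × ℕ) : Prop :=
  ∃ i < q.m, ∀ y ∈ q.F, ¬ Up q x y → q.f y i < q.f x i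

end Pool.Agent.Helper85.BM
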