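import Pool.Agent.Helper85.BM.Amal

/-!
# First amalgamation lemma
-/

namespace Pool.Agent.Helper85.BM

variable {Λ : Type} [LinearOrder Λ]

/-- **First amalgamation lemma.** If `q` and `r` are compatible and no point of `r` is `x` or above
`x` in `q`, then a sequence `σ` which is below `x` in `q` (as far as `q` goes) can be made to be
below `x`, without putting new points above `x`, and `x` can be separated. -/
theorem amal_one (q r : Cond Λ) (hc : ∃ u, u ≤ q ∧ u ≤ r) (x : Λ × ℕ) (hx : x ∈ q.F)
    (hr : ∀ y, Up q x y → y ∉ r.F) (σ : List ℕ)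
    (hσ : ∀ i v, σ[i]? = some v → i < q.m → v ≤ q.f x i) :
    ∃ q' : Cond Λ, q' ≤ q ∧ q' ≤ r ∧ (∀ y, Up q' x y → Up q x y) ∧ Separated q' x ∧
      σ.length ≤ q'.m ∧ ∀ i v, σ[i]? = some v → v ≤ q'.f x i := by
  classical
  obtain ⟨u, huq, hur⟩ := hc
  have huq' := le_def.mp huq
  have hur' := le_def.mp hur
  -- the relation
  have hsub : ∀ a b, Relation.TransGen (fun a b => q.R a b ∨ r.R a b) a b → u.R a b := by
    intro a b hab
    induction hab with
    | single h =>
      rcases h with h | h
      · exact huq'.2.2.2 _ _ h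
      · exact hur'.2.2.2 _ _ h
    | tail _ h ih =>
      rcases h with h | h
      · exact u.R_trans _ _ _ ih (huq'.2.2.2 _ _ h)
      · exact u.R_trans _ _ _ ih (hur'.2.2.2 _ _ h)
  have hmem : ∀ a b, Relation.TransGen (fun a b => q.R a b ∨ r.R a b) a b →
      a ∈ q.F ∪ r.F ∧ b ∈ q.F ∪ r.F := by
    have hstep : ∀ a b, (q.R a b ∨ r.R a b) → a ∈ q.F ∪ r.F ∧ b ∈ q.F ∪ r.F := by
      rintro a b (h | h)
      · exact ⟨Finset.mem_union_left _ (q.R_mem _ _ h).1, Finset.mem_union_left _ (q.R_mem _ _ h).2⟩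
      · exact ⟨Finset.mem_union_right _ (r.R_mem _ _ h).1,
          Finset.mem_union_right _ (r.R_mem _ _ h).2⟩
    intro a b hab
    induction hab with
    | single h => exact hstep _ _ h
    | tail _ h ih => exact ⟨ih.1, (hstep _ _ h).2⟩
  -- the set above `x` is closed upwards
  have hup : ∀ a b, Relation.TransGen (fun a b => q.R a b ∨ r.R a b) a b → Up q x a → Up q x b := by
    have hstep : ∀ a b, (q.R a b ∨ r.R a b) → Up q x a → Up q x b := by
      rintro a b (h | h) ha
      · rcases ha with rfl | ha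
        · exact Or.inr h
        · exact Or.inr (q.R_trans _ _ _ ha h)
      · exact absurd (r.R_mem _ _ h).1 (hr a ha)
    intro a b hab ha
    induction hab with
    | single h => exact hstep _ _ h ha
    | tail _ h ih => exact hstep _ _ h ih
  set S : ℕ := σ.sum + 1 with hS
  set g : Λ × ℕ → ℕ → ℕ := fun y i =>
    (if i < u.m then u.f y i else 0) + (if q.m ≤ i ∧ Up q x y then S else 0) with hg
  have hgle : ∀ a b, Relation.TransGen (fun a b => q.R a b ∨ r.R a b) a b →
      ∀ i, g a i ≤ g b i := by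
    intro a b hab i
    have h1 : (if i < u.m then u.f a i else 0) ≤ (if i < u.m then u.f b i else 0) := by
      split_ifs with hi
      · exact u.R_le _ _ (hsub a b hab) i hi
      · exact le_rfl
    have h2 : (if q.m ≤ i ∧ Up q x a then S else 0) ≤ (if q.m ≤ i ∧ Up q x b then S else 0) := by
      by_cases ha : q.m ≤ i ∧ Up q x a
      · rw [if_pos ha, if_pos ⟨ha.1, hup a b hab ha.2⟩]
      · rw [if_neg ha]
        exact Nat.zero_le _
    exact Nat.add_le_add h1 h2
  let q' : Cond Λ :=
    { F := q.F ∪ r.F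
      m := max u.m σ.length + 1
      f := g
      R := Relation.TransGen (fun a b => q.R a b ∨ r.R a b)
      R_mem := hmem
      R_trans := fun _ _ _ h1 h2 => h1.trans h2
      R_idx := fun a b h => u.R_idx _ _ (hsub a b h)
      R_le := fun a b h i _ => hgle a b h i }
  have hupq : ∀ y, Up q' x y → Up q x y := by
    rintro y (rfl | hy)
    · exact Or.inl rfl
    · exact hup _ _ hy (Or.inl rfl)
  have hupq' : ∀ y, Up q x y → Up q' x y := by
    rintro y (rfl | hy)
    · exact Or.inl rfl
    · exact Or.inr (Relation.TransGen.single (Or.inl hy))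
  have hmq : u.m ≤ max u.m σ.length + 1 := (le_max_left _ _).trans (Nat.le_succ _)
  refine ⟨q', le_def.mpr ⟨Finset.subset_union_left, huq'.2.1.trans hmq, ?_, fun a b h =>
    Relation.TransGen.single (Or.inl h)⟩, le_def.mpr ⟨Finset.subset_union_right,
    hur'.2.1.trans hmq, ?_, fun a b h => Relation.TransGen.single (Or.inr h)⟩, hupq, ?_, ?_, ?_⟩
  · intro y hy i hi
    show g y i = q.f y i
    rw [hg]
    simp only
    rw [if_pos (lt_of_lt_of_le hi huq'.2.1), if_neg (fun h => absurd h.1 (not_le.mpr hi)),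
      Nat.add_zero]
    exact huq'.2.2.1 y hy i hi
  · intro y hy i hi
    show g y i = r.f y i
    rw [hg]
    simp only
    rw [if_pos (lt_of_lt_of_le hi hur'.2.1), if_neg (fun h => hr y h.2 hy), Nat.add_zero]
    exact hur'.2.2.1 y hy i hi
  · refine ⟨max u.m σ.length, Nat.lt_succ_self _, ?_⟩
    intro y _ hny
    have hny' : ¬ Up q x y := fun h => hny (hupq' y h)
    have hnot : ¬ max u.m σ.length < u.m := not_lt.mpr (le_max_left _ _)
    show g y (max u.m σ.length) < g x (max u.m σ.length)
    rw [hg]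
    simp only
    rw [if_neg hnot, if_neg hnot, if_neg (fun h => hny' h.2),
      if_pos ⟨huq'.2.1.trans (le_max_left _ _), Or.inl rfl⟩]
    omega
  · show σ.length ≤ max u.m σ.length + 1
    exact (le_max_right _ _).trans (Nat.le_succ _)
  · intro i v hv
    show v ≤ g x i
    rw [hg]
    simp only
    by_cases hi : i < q.m
    · rw [if_pos (lt_of_lt_of_le hi huq'.2.1), huq'.2.2.1 x hx i hi]
      exact (hσ i v hv hi).trans (Nat.le_add_right _ _)
    · rw [if_pos (⟨not_lt.mp hi, Or.inl rfl⟩ : q.m ≤ i ∧ Up q x x)]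
      have h1 : v ≤ σ.sum := List.le_sum_of_mem (List.mem_of_getElem? hv)
      omega

end Pool.Agent.Helper85.BM
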