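import Pool.Agent.Helper85.BM.Amal

/-!
# Second amalgamation lemma
-/

namespace Pool.Agent.Helper85.BM

variable {Λ : Type} [LinearOrder Λ]

/-- **Second amalgamation lemma.** If `x` is separated in `q` and `v` is compatible with `q`, there
is a common extension in which each point above `x` is above `x` in `q` or a point of `v`. -/
theorem amal_two (q v : Cond Λ) (hc : ∃ u, u ≤ q ∧ u ≤ v) (x : Λ × ℕ) (hx : x ∈ q.F)
    (hs : Separated q x) :
    ∃ q' : Cond Λ, q' ≤ q ∧ q' ≤ v ∧ ∀ y, Up q' x y → Up q x y ∨ y ∈ v.F := by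
  classical
  obtain ⟨u, huq, huv⟩ := hc
  have huq' := le_def.mp huq
  have huv' := le_def.mp huv
  have hsub : ∀ a b, Relation.TransGen (fun a b => q.R a b ∨ v.R a b) a b → u.R a b := by
    intro a b hab
    induction hab with
    | single h =>
      rcases h with h | h
      · exact huq'.2.2.2 _ _ h
      · exact huv'.2.2.2 _ _ h
    | tail _ h ih =>
      rcases h with h | h
      · exact u.R_trans _ _ _ ih (huq'.2.2.2 _ _ h)
      · exact u.R_trans _ _ _ ih (huv'.2.2.2 _ _ h)
  have hmem : ∀ a b, Relation.TransGen (fun a b => q.R a b ∨ v.R a b) a b →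
      a ∈ q.F ∪ v.F ∧ b ∈ q.F ∪ v.F := by
    have hstep : ∀ a b, (q.R a b ∨ v.R a b) → a ∈ q.F ∪ v.F ∧ b ∈ q.F ∪ v.F := by
      rintro a b (h | h)
      · exact ⟨Finset.mem_union_left _ (q.R_mem _ _ h).1, Finset.mem_union_left _ (q.R_mem _ _ h).2⟩
      · exact ⟨Finset.mem_union_right _ (v.R_mem _ _ h).1,
          Finset.mem_union_right _ (v.R_mem _ _ h).2⟩
    intro a b hab
    induction hab with
    | single h => exact hstep _ _ h
    | tail _ h ih => exact ⟨ih.1, (hstep _ _ h).2⟩
  let q' : Cond Λ :=
    { F := q.F ∪ v.F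
      m := u.m
      f := u.f
      R := Relation.TransGen (fun a b => q.R a b ∨ v.R a b)
      R_mem := hmem
      R_trans := fun _ _ _ h1 h2 => h1.trans h2
      R_idx := fun a b h => u.R_idx _ _ (hsub a b h)
      R_le := fun a b h => u.R_le _ _ (hsub a b h) }
  refine ⟨q', le_def.mpr ⟨Finset.subset_union_left, huq'.2.1, huq'.2.2.1, fun a b h =>
    Relation.TransGen.single (Or.inl h)⟩, le_def.mpr ⟨Finset.subset_union_right, huv'.2.1,
    huv'.2.2.1, fun a b h => Relation.TransGen.single (Or.inr h)⟩, ?_⟩
  have key : ∀ y, Relation.TransGen (fun a b => q.R a b ∨ v.R a b) x y →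
      Up q x y ∨ y ∈ v.F := by
    intro y hy
    induction hy with
    | single h =>
      rcases h with h | h
      · exact Or.inl (Or.inr h)
      · exact Or.inr (v.R_mem _ _ h).2
    | @tail y z hxy h ih =>
      rcases h with h | h
      · by_cases hup : Up q x y
        · left
          rcases hup with rfl | hup
          · exact Or.inr h
          · exact Or.inr (q.R_trans _ _ _ hup h)
        · exfalso
          obtain ⟨i, hi, hsep⟩ := hs
          have hyq : y ∈ q.F := (q.R_mem _ _ h).1
          have h1 := hsep y hyq hup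
          have h2 := u.R_le _ _ (hsub x y hxy) i (lt_of_lt_of_le hi huq'.2.1)
          rw [huq'.2.2.1 x hx i hi, huq'.2.2.1 y hyq i hi] at h2
          omega
      · exact Or.inr (v.R_mem _ _ h).2
  intro y hy
  rcases hy with rfl | hy
  · exact Or.inl (Or.inl rfl)
  · exact key y hy

end Pool.Agent.Helper85.BM
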