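import Pool.Agent.Helper85.BM.Cond

/-!
# The countable chain condition
-/

namespace Pool.Agent.Helper85.BM

/-- An uncountable set has an uncountable fibre under a map to a countable type. -/
private theorem uncountable_fiber {ι κ : Type} [Countable κ] (J : Set ι) (hJ : ¬ J.Countable)
    (φ : ι → κ) : ∃ k, ¬ (J ∩ φ ⁻¹' {k}).Countable := by
  by_contra hcon
  push Not at hcon
  apply hJ
  have h : J ⊆ ⋃ k, (J ∩ φ ⁻¹' {k}) := by
    intro i hi
    exact Set.mem_iUnion.2 ⟨φ i, hi, rfl⟩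
  exact (Set.countable_iUnion hcon).mono h

private theorem delta_aux {ι α : Type} [DecidableEq α] (n : ℕ) :
    ∀ (I : Set ι) (_ : ¬ I.Countable) (F : ι → Finset α) (_ : ∀ i ∈ I, (F i).card = n),
    ∃ (J : Set ι) (Δ : Finset α), J ⊆ I ∧ ¬ J.Countable ∧
      ∀ i ∈ J, ∀ j ∈ J, i ≠ j → F i ∩ F j = Δ := by
  induction n with
  | zero =>
    intro I hI F hF
    refine ⟨I, ∅, Set.Subset.refl _, hI, ?_⟩
    intro i hi j _ _
    rw [Finset.card_eq_zero.1 (hF i hi), Finset.empty_inter]
  | succ n ih =>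
    intro I hI F hF
    by_cases hA : ∃ a : α, ¬ {i ∈ I | a ∈ F i}.Countable
    · obtain ⟨a, ha⟩ := hA
      obtain ⟨J, Δ, hJ1, hJ2, hJ3⟩ := ih {i ∈ I | a ∈ F i} ha (fun i => (F i).erase a) (by
        intro i hi
        rw [Finset.card_erase_of_mem hi.2, hF i hi.1]
        rfl)
      refine ⟨J, insert a Δ, fun i hi => (hJ1 hi).1, hJ2, ?_⟩
      intro i hi j hj hij
      rw [← hJ3 i hi j hj hij]
      have h1 : a ∈ F i := (hJ1 hi).2
      have h2 : a ∈ F j := (hJ1 hj).2
      ext x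
      simp only [Finset.mem_inter, Finset.mem_insert, Finset.mem_erase]
      constructor
      · rintro ⟨hx1, hx2⟩
        by_cases hxa : x = a
        · exact Or.inl hxa
        · exact Or.inr ⟨⟨hxa, hx1⟩, ⟨hxa, hx2⟩⟩
      · rintro (rfl | ⟨⟨_, hx1⟩, ⟨_, hx2⟩⟩)
        · exact ⟨h1, h2⟩
        · exact ⟨hx1, hx2⟩
    · push Not at hA
      obtain ⟨J, hJ⟩ := zorn_subset {J : Set ι | J ⊆ I ∧ J.PairwiseDisjoint F} (by
        intro c hc hchain
        refine ⟨⋃₀ c, ⟨Set.sUnion_subset fun s hs => (hc hs).1, ?_⟩,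
          fun s hs => Set.subset_sUnion_of_mem hs⟩
        rw [Set.pairwiseDisjoint_sUnion hchain.directedOn]
        exact fun s hs => (hc hs).2)
      have hJ1 : J ⊆ I := hJ.prop.1
      have hJ2 : J.PairwiseDisjoint F := hJ.prop.2
      refine ⟨J, ∅, hJ1, ?_, ?_⟩
      · intro hcount
        apply hI
        have hC : (⋃ i ∈ J, (F i : Set α)).Countable :=
          hcount.biUnion fun i _ => (F i).countable_toSet
        have h1 : (⋃ a ∈ (⋃ i ∈ J, (F i : Set α)), {i ∈ I | a ∈ F i}).Countable :=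
          hC.biUnion fun a _ => hA a
        apply (hcount.union h1).mono
        intro i hi
        by_cases hiJ : i ∈ J
        · exact Or.inl hiJ
        · right
          by_contra hcon
          have hnew : insert i J ∈ {J : Set ι | J ⊆ I ∧ J.PairwiseDisjoint F} := by
            refine ⟨Set.insert_subset hi hJ1, ?_⟩
            apply hJ2.insert
            intro j hj _
            rw [Finset.disjoint_left]
            intro x hx1 hx2
            apply hcon
            simp only [Set.mem_iUnion]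
            exact ⟨x, ⟨j, hj, hx2⟩, hi, hx1⟩
          have h2 := hJ.2 hnew (Set.subset_insert i J)
          exact hiJ (h2 (Set.mem_insert i J))
      · intro i hi j hj hij
        exact Finset.disjoint_iff_inter_eq_empty.1 (hJ2 hi hj hij)

/-- The Delta system lemma for finite sets. -/
theorem delta_system {ι α : Type} [DecidableEq α] (I : Set ι) (hI : ¬ I.Countable)
    (F : ι → Finset α) :
    ∃ (J : Set ι) (Δ : Finset α), J ⊆ I ∧ ¬ J.Countable ∧
      ∀ i ∈ J, ∀ j ∈ J, i ≠ j → F i ∩ F j = Δ := by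
  obtain ⟨n, hn⟩ := uncountable_fiber I hI (fun i => (F i).card)
  obtain ⟨J, Δ, h1, h2, h3⟩ := delta_aux n (I ∩ (fun i => (F i).card) ⁻¹' {n}) hn F
    (fun i hi => hi.2)
  exact ⟨J, Δ, h1.trans Set.inter_subset_left, h2, h3⟩

variable {Λ : Type} [LinearOrder Λ]

/-- Two conditions of the same length whose sequences agree on the common points are
compatible. -/
theorem compat_of_agree (p q : Cond Λ) (hm : p.m = q.m)
    (hf : ∀ x ∈ p.F, x ∈ q.F → ∀ i < p.m, p.f x i = q.f x i) : ∃ r, r ≤ p ∧ r ≤ q := by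
  classical
  let S : Λ × ℕ → Λ × ℕ → Prop := fun x y => p.R x y ∨ q.R x y
  let g : Λ × ℕ → ℕ → ℕ := fun x i => if x ∈ p.F then p.f x i else q.f x i
  have hgp : ∀ x ∈ p.F, ∀ i, g x i = p.f x i := by
    intro x hx i
    simp only [g]
    rw [if_pos hx]
  have hgq : ∀ x ∈ q.F, ∀ i < p.m, g x i = q.f x i := by
    intro x hx i hi
    simp only [g]
    by_cases hxp : x ∈ p.F
    · rw [if_pos hxp]; exact hf x hxp hx i hi
    · rw [if_neg hxp]
  have hSmem : ∀ x y, S x y → x ∈ p.F ∪ q.F ∧ y ∈ p.F ∪ q.F := by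
    rintro x y (h | h)
    · exact ⟨Finset.mem_union_left _ (p.R_mem x y h).1, Finset.mem_union_left _ (p.R_mem x y h).2⟩
    · exact ⟨Finset.mem_union_right _ (q.R_mem x y h).1,
        Finset.mem_union_right _ (q.R_mem x y h).2⟩
  have hSidx : ∀ x y, S x y → x.1 < y.1 := by
    rintro x y (h | h)
    · exact p.R_idx x y h
    · exact q.R_idx x y h
  have hSle : ∀ x y, S x y → ∀ i < p.m, g x i ≤ g y i := by
    rintro x y (h | h) i hi
    · rw [hgp x (p.R_mem x y h).1, hgp y (p.R_mem x y h).2]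
      exact p.R_le x y h i hi
    · rw [hgq x (q.R_mem x y h).1 i hi, hgq y (q.R_mem x y h).2 i hi]
      exact q.R_le x y h i (hm ▸ hi)
  let r : Cond Λ :=
    { F := p.F ∪ q.F
      m := p.m
      f := g
      R := Relation.TransGen S
      R_mem := by
        intro x y h
        induction h with
        | single h => exact hSmem _ _ h
        | tail _ h ih => exact ⟨ih.1, (hSmem _ _ h).2⟩
      R_trans := fun x y z h1 h2 => h1.trans h2
      R_idx := by
        intro x y h
        induction h with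
        | single h => exact hSidx _ _ h
        | tail _ h ih => exact ih.trans (hSidx _ _ h)
      R_le := by
        intro x y h
        induction h with
        | single h => exact hSle _ _ h
        | tail _ h ih => exact fun i hi => (ih i hi).trans (hSle _ _ h i hi) }
  refine ⟨r, ?_, ?_⟩
  · rw [le_def]
    exact ⟨Finset.subset_union_left, le_refl _, fun x hx i _ => hgp x hx i,
      fun x y h => Relation.TransGen.single (Or.inl h)⟩
  · rw [le_def]
    exact ⟨Finset.subset_union_right, hm.ge, fun x hx i hi => hgq x hx i (hm ▸ hi),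
      fun x y h => Relation.TransGen.single (Or.inr h)⟩

theorem cond_ccc : CCC (Cond Λ) := by
  intro A hA
  by_contra hcon
  obtain ⟨J, Δ, hJ1, hJ2, hJ3⟩ := delta_system A hcon (fun p => p.F)
  obtain ⟨m, hm⟩ := uncountable_fiber J hJ2 (fun p => p.m)
  obtain ⟨g, hg⟩ := uncountable_fiber (κ := {x // x ∈ Δ} × Fin m → ℕ) _ hm
    (fun p x => p.f (x.1 : Λ × ℕ) (x.2 : ℕ))
  have hns : ¬ ((J ∩ (fun p : Cond Λ => p.m) ⁻¹' {m}) ∩
      (fun (p : Cond Λ) (x : {x // x ∈ Δ} × Fin m) => p.f (x.1 : Λ × ℕ) (x.2 : ℕ)) ⁻¹'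
        {g}).Subsingleton := fun h => hg h.finite.countable
  rw [Set.not_subsingleton_iff] at hns
  obtain ⟨a, ha, b, hb, hab⟩ := hns
  have ha1 : a.m = m := ha.1.2
  have hb1 : b.m = m := hb.1.2
  have ha2 : (fun x : {x // x ∈ Δ} × Fin m => a.f (x.1 : Λ × ℕ) (x.2 : ℕ)) = g := ha.2
  have hb2 : (fun x : {x // x ∈ Δ} × Fin m => b.f (x.1 : Λ × ℕ) (x.2 : ℕ)) = g := hb.2
  apply hA a (hJ1 ha.1.1) b (hJ1 hb.1.1) hab
  apply compat_of_agree a b (ha1.trans hb1.symm)
  intro x hx1 hx2 i hi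
  have hΔ : x ∈ Δ := by
    rw [← hJ3 a ha.1.1 b hb.1.1 hab]
    exact Finset.mem_inter.2 ⟨hx1, hx2⟩
  have h1 := congrFun (ha2.trans hb2.symm) (⟨x, hΔ⟩, ⟨i, ha1 ▸ hi⟩)
  exact h1

end Pool.Agent.Helper85.BM
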