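import Pool.Agent.Helper85.BM.Closed

/-!
# The first reflecting set
-/

namespace Pool.Agent.Helper85.BM

open Cardinal

/-- A set `N`, closed under the operations `c n` and `D`, and a point `g` above it such that the
type of `g` over each sequence of elements of `N` indexed by `I` (a set of size continuum) is
realised in `N`, above the sequence. -/
theorem exists_N2 {Λ : Type} [LinearOrder Λ] [Nonempty Λ]
    (hΛ : ∀ s : Set Λ, #s ≤ 2 ^ (2 ^ ℵ₀ : Cardinal.{0}) → ∃ b, ∀ a ∈ s, a < b)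
    (I : Type) (hI : #I = 2 ^ ℵ₀) (B : Λ → Λ → Set Λ) (c : ℕ → Λ → Λ → Λ) (D : Λ → Λ) :
    ∃ (N : Set Λ) (g : Λ), N.Nonempty ∧ (∀ a ∈ N, a < g) ∧
      (∀ n, ∀ a ∈ N, ∀ b ∈ N, c n a b ∈ N) ∧ (∀ a ∈ N, D a ∈ N) ∧
      ∀ a : I → Λ, (∀ i, a i ∈ N) → ∃ g₁ ∈ N, (∀ i, a i < g₁) ∧
        ∀ i j, a j ∈ B (a i) g₁ ↔ a j ∈ B (a i) g := by
  classical
  have hI2 : (2 : Cardinal.{0}) ≤ #I := by
    rw [hI]
    exact (Cardinal.natCast_lt_aleph0 (n := 2)).le.trans (Cardinal.cantor ℵ₀).le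
  obtain ⟨i₀, i₁, hi⟩ := Cardinal.two_le_iff.1 hI2
  have hκ : ℵ₀ ≤ (2 ^ (2 ^ ℵ₀ : Cardinal.{0}) : Cardinal.{0}) :=
    (Cardinal.cantor ℵ₀).le.trans (Cardinal.cantor _).le
  have hc0 : ℵ₀ ≤ (2 ^ ℵ₀ : Cardinal.{0}) := (Cardinal.cantor ℵ₀).le
  let G : ((I → I → Prop) ⊕ (ℕ ⊕ Unit)) → (I → Λ) → Λ := fun o a =>
    match o with
    | Sum.inl θ => if h : ∃ g, (∀ i, a i < g) ∧ ∀ i j, (a j ∈ B (a i) g ↔ θ i j) then h.choose
        else a i₀
    | Sum.inr (Sum.inl n) => c n (a i₀) (a i₁)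
    | Sum.inr (Sum.inr _) => D (a i₀)
  have k1 : (2 ^ (2 ^ ℵ₀ : Cardinal.{0}) : Cardinal.{0}) ^ #I ≤ 2 ^ (2 ^ ℵ₀ : Cardinal.{0}) := by
    rw [hI, ← Cardinal.power_mul, Cardinal.mul_eq_self hc0]
  have k2 : #((I → I → Prop) ⊕ (ℕ ⊕ Unit)) ≤ 2 ^ (2 ^ ℵ₀ : Cardinal.{0}) := by
    have h1 : #(I → I → Prop) = 2 ^ (2 ^ ℵ₀ : Cardinal.{0}) := by
      rw [← Cardinal.power_def, ← Cardinal.power_def, Cardinal.mk_Prop, ← Cardinal.power_mul, hI,
        Cardinal.mul_eq_self hc0]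
    rw [Cardinal.mk_sum, Cardinal.mk_sum, Cardinal.lift_id, Cardinal.lift_id, Cardinal.lift_id,
      Cardinal.lift_id, h1]
    refine Cardinal.add_le_of_le hκ le_rfl (Cardinal.add_le_of_le hκ ?_ ?_)
    · rw [Cardinal.mk_nat]; exact hκ
    · rw [Cardinal.mk_unit]; exact Cardinal.one_le_aleph0.trans hκ
  have k3 : #({Classical.arbitrary Λ} : Set Λ) ≤ 2 ^ (2 ^ ℵ₀ : Cardinal.{0}) := by
    rw [Cardinal.mk_singleton]
    exact Cardinal.one_le_aleph0.trans hκ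
  obtain ⟨N, hSN, hN, hcl⟩ := exists_closed G {Classical.arbitrary Λ}
    (2 ^ (2 ^ ℵ₀ : Cardinal.{0})) hκ k1 k2 k3
  · obtain ⟨g, hg⟩ := hΛ N hN
    refine ⟨N, g, ⟨_, hSN rfl⟩, hg, ?_, ?_, ?_⟩
    · intro n a ha b hb
      have h1 := hcl (Sum.inr (Sum.inl n)) (fun i => if i = i₀ then a else b) (fun i => by
        by_cases h : i = i₀
        · simp only [h, if_true]; exact ha
        · simp only [h, if_false]; exact hb)
      have h2 : G (Sum.inr (Sum.inl n)) (fun i => if i = i₀ then a else b) = c n a b := by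
        change c n (if i₀ = i₀ then a else b) (if i₁ = i₀ then a else b) = c n a b
        rw [if_pos rfl, if_neg hi.symm]
      rwa [h2] at h1
    · intro a ha
      exact hcl (Sum.inr (Sum.inr ())) (fun _ => a) (fun _ => ha)
    · intro a ha
      have hex : ∃ g', (∀ i, a i < g') ∧ ∀ i j, (a j ∈ B (a i) g' ↔ a j ∈ B (a i) g) :=
        ⟨g, fun i => hg _ (ha i), fun _ _ => Iff.rfl⟩
      have h1 := hcl (Sum.inl fun i j => a j ∈ B (a i) g) a ha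
      have h2 : G (Sum.inl fun i j => a j ∈ B (a i) g) a = hex.choose := dif_pos hex
      rw [h2] at h1
      exact ⟨hex.choose, h1, hex.choose_spec.1, hex.choose_spec.2⟩

end Pool.Agent.Helper85.BM
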