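import Pool.Agent.Helper85.BM.Free1
import Pool.Agent.Helper85.BM.Free2

/-!
# The free sequence lemma (a partition property of large linear orders)
-/

namespace Pool.Agent.Helper85.BM

open Cardinal

/-- **The free sequence lemma.** -/
theorem free_sequence {Λ : Type} [LinearOrder Λ] [Nonempty Λ]
    (hΛ : ∀ s : Set Λ, #s ≤ 2 ^ (2 ^ ℵ₀ : Cardinal.{0}) → ∃ b, ∀ a ∈ s, a < b)
    (B C : Λ → Λ → Set Λ) (hB : ∀ β γ, (B β γ).Countable) (hC : ∀ β γ, (C β γ).Countable)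
    (D : Λ → Λ) :
    ∃ (ε : Λ) (b : ℕ → Λ), ε < b 0 ∧ (∀ n, b n < b (n+1)) ∧ (∀ n, D (b n) < b (n+1)) ∧
      (∀ n, ε ∉ B (b n) (b (n+1))) ∧
      ∀ n, ∀ i < n, ∀ ξ ∈ C ε (b i), ε ≤ ξ → ξ ∉ B (b n) (b (n+1)) := by
  classical
  -- enumeration of `C β γ ∪ {β}`
  have henum : ∀ β γ : Λ, ∃ e : ℕ → Λ, C β γ ∪ {β} = Set.range e := by
    intro β γ
    exact ((hC β γ).union (Set.countable_singleton β)).exists_eq_range
      ⟨β, Or.inr rfl⟩
  choose e he using henum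
  have hI : #(Set ℕ) = 2 ^ ℵ₀ := by
    rw [Cardinal.mk_set, Cardinal.mk_nat]
  obtain ⟨N, g, hne, hg, hcN, hDN, hN⟩ := exists_N2 hΛ (Set ℕ) hI B (fun n β γ => e β γ n) D
  obtain ⟨N₁, g₁, hsub, hg₁, hne₁, hlt₁, hc₁, hD₁, htype, hub, href, hrefβ⟩ :=
    exists_N1 (Set ℕ) hI B (fun n β γ => e β γ n) D N g hne hcN hDN hN
  -- the point `ε`
  obtain ⟨ε, hε, hεB⟩ : ∃ ε ∈ N₁, ∀ ξ ∈ N₁, ε ≤ ξ → ξ ∉ B g₁ g := by
    by_cases hR : (B g₁ g ∩ N₁).Nonempty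
    · obtain ⟨z, hz⟩ := ((hB g₁ g).mono Set.inter_subset_left :
        (B g₁ g ∩ N₁).Countable).exists_eq_range hR
      obtain ⟨γ, hγ, hγz⟩ := hub z (fun n => by
        have : z n ∈ B g₁ g ∩ N₁ := by rw [hz]; exact ⟨n, rfl⟩
        exact this.2)
      refine ⟨γ, hγ, fun ξ hξ hle hB' => ?_⟩
      have hmem : ξ ∈ B g₁ g ∩ N₁ := ⟨hB', hξ⟩
      rw [hz] at hmem
      obtain ⟨n, rfl⟩ := hmem
      exact absurd (hγz n) (not_lt.2 hle)
    · obtain ⟨ε, hε⟩ := hne₁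
      refine ⟨ε, hε, fun ξ hξ _ hB' => hR ⟨ξ, hB', hξ⟩⟩
  -- the states
  let S := {s : Λ × (ℕ → Λ) // s.1 ∈ N₁ ∧ (∀ k, s.2 k ∈ N₁) ∧ (∀ k, ε ≤ s.2 k) ∧
    ∀ k, s.2 k ∉ B s.1 g}
  have hstep : ∀ s : S, ∃ s' : S, s.1.1 < s'.1.1 ∧ D s.1.1 < s'.1.1 ∧
      (∀ k, s.1.2 k ∉ B s.1.1 s'.1.1) ∧ (∀ k, ∃ l, s'.1.2 l = s.1.2 k) ∧
      ∀ ξ ∈ C ε s.1.1, ε ≤ ξ → ∃ l, s'.1.2 l = ξ := by
    rintro ⟨⟨b, Y⟩, hb, hY, hεY, hYB⟩
    simp only at hb hY hεY hYB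
    obtain ⟨Y', hY'⟩ : ∃ Y' : ℕ → Λ, Set.range Y ∪ (C ε b ∩ Set.Ici ε) = Set.range Y' :=
      ((Set.countable_range Y).union ((hC ε b).mono Set.inter_subset_left)).exists_eq_range
        ⟨Y 0, Or.inl ⟨0, rfl⟩⟩
    have hY'mem : ∀ k, Y' k ∈ N₁ ∧ ε ≤ Y' k := by
      intro k
      have : Y' k ∈ Set.range Y ∪ (C ε b ∩ Set.Ici ε) := by rw [hY']; exact ⟨k, rfl⟩
      rcases this with ⟨l, hl⟩ | ⟨h1, h2⟩
      · rw [← hl]
        exact ⟨hY l, hεY l⟩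
      · refine ⟨?_, h2⟩
        have h3 : Y' k ∈ Set.range (e ε b) := by
          rw [← he]
          exact Or.inl h1
        obtain ⟨m, hm⟩ := h3
        rw [← hm]
        exact hc₁ m ε hε b hb
    let z : ℕ → Λ := fun n => if n = 0 then b else D b
    have hz : ∀ n, z n ∈ N₁ := by
      intro n
      by_cases hn : n = 0
      · simp only [z, hn, if_true]
        exact hb
      · simp only [z, hn, if_false]
        exact hD₁ b hb
    obtain ⟨γ, hγ, hγz, hγx, hγy⟩ := hrefβ b hb Y Y' z hY (fun k => (hY'mem k).1) hz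
      ⟨g₁, hg₁, fun n => hlt₁ _ (hz n),
        fun k h => hYB k ((htype b hb (Y k) (hY k)).1 h),
        fun k => hεB _ (hY'mem k).1 (hY'mem k).2⟩
    refine ⟨⟨⟨γ, Y'⟩, hγ, fun k => (hY'mem k).1, fun k => (hY'mem k).2, hγy⟩, ?_, ?_, hγx, ?_, ?_⟩
    · have := hγz 0
      simpa only [z, if_true] using this
    · have := hγz 1
      simpa only [z, one_ne_zero, if_false] using this
    · intro k
      have : Y k ∈ Set.range Y' := by
        rw [← hY']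
        exact Or.inl ⟨k, rfl⟩
      exact this
    · intro ξ hξ hle
      have : ξ ∈ Set.range Y' := by
        rw [← hY']
        exact Or.inr ⟨hξ, hle⟩
      exact this
  choose step hstep using hstep
  -- the start
  obtain ⟨b₀, hb₀, hb₀z, hb₀y⟩ := href (fun _ => ε) (fun _ => ε) (fun _ => hε) (fun _ => hε)
    ⟨g₁, hg₁, fun _ => hlt₁ ε hε, fun _ => hεB ε hε le_rfl⟩
  let s₀ : S := ⟨⟨b₀, fun _ => ε⟩, hb₀, fun _ => hε, fun _ => le_rfl, hb₀y⟩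
  let s : ℕ → S := fun n => step^[n] s₀
  have hs : ∀ n, s (n+1) = step (s n) := fun n => Function.iterate_succ_apply' step n s₀
  have hεr : ∀ n, ∃ l, (s n).1.2 l = ε := by
    intro n
    induction n with
    | zero => exact ⟨0, rfl⟩
    | succ n ih =>
      obtain ⟨l, hl⟩ := ih
      obtain ⟨l', hl'⟩ := (hstep (s n)).2.2.2.1 l
      refine ⟨l', ?_⟩
      rw [hs, hl', hl]
  have hCr : ∀ n, ∀ i < n, ∀ ξ ∈ C ε (s i).1.1, ε ≤ ξ → ∃ l, (s n).1.2 l = ξ := by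
    intro n
    induction n with
    | zero => intro i hi; exact absurd hi (Nat.not_lt_zero i)
    | succ n ih =>
      intro i hi ξ hξ hle
      rcases Nat.lt_succ_iff_lt_or_eq.1 hi with hi' | rfl
      · obtain ⟨l, hl⟩ := ih i hi' ξ hξ hle
        obtain ⟨l', hl'⟩ := (hstep (s n)).2.2.2.1 l
        refine ⟨l', ?_⟩
        rw [hs, hl', hl]
      · obtain ⟨l', hl'⟩ := (hstep (s i)).2.2.2.2 ξ hξ hle
        exact ⟨l', by rw [hs, hl']⟩
  refine ⟨ε, fun n => (s n).1.1, hb₀z 0, ?_, ?_, ?_, ?_⟩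
  · intro n
    simp only [hs]
    exact (hstep (s n)).1
  · intro n
    simp only [hs]
    exact (hstep (s n)).2.1
  · intro n
    simp only [hs]
    obtain ⟨l, hl⟩ := hεr n
    have h := (hstep (s n)).2.2.1 l
    rw [hl] at h
    exact h
  · intro n i hi ξ hξ hle
    simp only [hs]
    obtain ⟨l, hl⟩ := hCr n i hi ξ hξ hle
    have h := (hstep (s n)).2.2.1 l
    rw [hl] at h
    exact h

end Pool.Agent.Helper85.BM
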