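import Mathlib

/-!
# A large linear order
-/

namespace Pool.Agent.Helper85.BM

open Cardinal

/-- The well-ordered set of all ordinals below the successor of `2 ^ 2 ^ ℵ₀`. -/
theorem exists_large : ∃ (Λ : Type) (_ : LinearOrder Λ), Nonempty Λ ∧ WellFoundedLT Λ ∧
    (∀ s : Set Λ, #s ≤ 2 ^ (2 ^ ℵ₀ : Cardinal.{0}) → ∃ b, ∀ a ∈ s, a < b) ∧
    ∀ b : Λ, #(Set.Iic b) ≤ 2 ^ (2 ^ ℵ₀ : Cardinal.{0}) := by
  set κ : Cardinal.{0} := 2 ^ (2 ^ ℵ₀ : Cardinal.{0}) with hκ
  have hκ0 : ℵ₀ ≤ κ := (cantor _).le.trans (cantor _).le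
  have hreg : Cardinal.IsRegular (Order.succ κ) := isRegular_succ hκ0
  have hcof : Order.cof (Order.succ κ).ord.ToType = Order.succ κ := by
    rw [Ordinal.cof_toType, hreg.cof_ord]
  have hmk : #((Order.succ κ).ord.ToType) = Order.succ κ := mk_ord_toType _
  refine ⟨(Order.succ κ).ord.ToType, inferInstance, ?_, inferInstance, ?_, ?_⟩
  · rw [← mk_ne_zero_iff, hmk]
    exact hreg.ne_zero
  · intro s hs
    by_contra hcon
    push Not at hcon
    have hc : IsCofinal s := fun x => by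
      obtain ⟨a, ha, hxa⟩ := hcon x
      exact ⟨a, ha, hxa⟩
    have h1 := Order.cof_le hc
    rw [hcof] at h1
    exact absurd (h1.trans hs) (not_le.mpr (Order.lt_succ κ))
  · intro b
    have h1 : #(Set.Iio b) < Order.succ κ := by
      have := mk_Iio_lt b (by simp)
      rwa [hmk] at this
    have h2 : #(Set.Iio b) ≤ κ := Order.lt_succ_iff.mp h1
    have h3 : Set.Iic b = insert b (Set.Iio b) := (Set.Iio_insert).symm
    rw [h3]
    calc #(insert b (Set.Iio b) : Set (Order.succ κ).ord.ToType) ≤ #(Set.Iio b) + 1 :=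
          mk_insert_le
      _ ≤ κ + 1 := by gcongr
      _ = κ := add_one_eq hκ0

end Pool.Agent.Helper85.BM
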