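import Pool.Agent.Helper85.BM.Rank

/-!
# The name of a run
-/

namespace Pool.Agent.Helper85.BM

variable {P St : Type} [Preorder P] (step : P → St → St → Prop)

/-- A partial name, below `q`, of a state with undefined rank. -/
private structure Good (q : P) (D : P → St → Prop) : Prop where
  mono : ∀ r r' b, r' ≤ r → D r b → D r' b
  below : ∀ r b, D r b → r ≤ q
  uniq : ∀ r b c, D r b → D r c → b = c
  dense : ∀ r, r ≤ q → ∃ r', r' ≤ r ∧ ∃ b, D r' b
  bad : ∀ r b, D r b → Bad step b r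

private theorem good_zero (a : St) (q : P) (h : Bad step a q) :
    Good step q (fun r b => r ≤ q ∧ b = a) where
  mono := fun _ _ _ hr hb => ⟨hr.trans hb.1, hb.2⟩
  below := fun _ _ hb => hb.1
  uniq := fun _ _ _ hb hc => hb.2.trans hc.2.symm
  dense := fun r hr => ⟨r, le_refl r, a, hr, rfl⟩
  bad := fun r b hb => by
    rw [hb.2]
    exact Bad_mono step hb.1 h

private theorem good_succ (hstep : ∀ p q a b, q ≤ p → step p a b → step q a b) (q : P)
    (D : P → St → Prop) (hD : Good step q D) :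
    ∃ D' : P → St → Prop, Good step q D' ∧ ∀ r b c, D r b → D' r c → step r b c := by
  classical
  obtain ⟨A, hA1, hA2, hA3⟩ := exists_max_antichain
    (fun r : P => ∃ b c, D r b ∧ step r b c ∧ Bad step c r) q (by
      intro p hp
      obtain ⟨r, hr, b, hb⟩ := hD.dense p hp
      obtain ⟨r', hr', c, hc, hc'⟩ := Bad_step step (hD.bad r b hb) r (le_refl r)
      exact ⟨r', hr'.trans hr, b, c, hD.mono r r' b hr' hb, hc, hc'⟩)
  have hex : ∀ s : P, ∃ c : St, s ∈ A → ∃ b, D s b ∧ step s b c ∧ Bad step c s := by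
    intro s
    by_cases hs : s ∈ A
    · obtain ⟨-, b, c, h⟩ := hA1 s hs
      exact ⟨c, fun _ => ⟨b, h⟩⟩
    · obtain ⟨_, _, b, _⟩ := hD.dense q (le_refl q)
      exact ⟨b, fun h => absurd h hs⟩
  choose v hv using hex
  refine ⟨fun r c => ∃ s ∈ A, r ≤ s ∧ c = v s, ?_, ?_⟩
  · refine ⟨?_, ?_, ?_, ?_, ?_⟩
    · rintro r r' b hr ⟨s, hs, hrs, hb⟩
      exact ⟨s, hs, hr.trans hrs, hb⟩
    · rintro r b ⟨s, hs, hrs, -⟩
      exact hrs.trans (hA1 s hs).1
    · rintro r b c ⟨s, hs, hrs, hb⟩ ⟨t, ht, hrt, hc⟩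
      by_cases hst : s = t
      · rw [hb, hc, hst]
      · exact absurd ⟨r, hrs, hrt⟩ (hA2 s hs t ht hst)
    · intro r hr
      obtain ⟨s, hs, r', hr's, hr'r⟩ := hA3 r hr
      exact ⟨r', hr'r, v s, s, hs, hr's, rfl⟩
    · rintro r b ⟨s, hs, hrs, hb⟩
      obtain ⟨b', -, -, hbad⟩ := hv s hs
      rw [hb]
      exact Bad_mono step hrs hbad
  · rintro r b c hb ⟨s, hs, hrs, hc⟩
    obtain ⟨b', hb', hst, -⟩ := hv s hs
    have hbb : b = b' := hD.uniq r b b' hb (hD.mono s r b' hrs hb')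
    rw [hc, hbb]
    exact hstep s r b' (v s) hrs hst

/-- If the rank of `a` is undefined then there is a name of an infinite sequence of states. -/
theorem run_of_bad (hstep : ∀ p q a b, q ≤ p → step p a b → step q a b) (a : St) (q : P)
    (h : Bad step a q) :
    ∃ S : ℕ → Name P St, (∀ r, r ≤ q → ∀ b, (S 0).val r b → b = a) ∧
      ∀ n r, r ≤ q → ∀ b c, (S n).val r b → (S (n+1)).val r c → step r b c := by
  classical
  have hnext : ∀ D : {D : P → St → Prop // Good step q D}, ∃ D' : {D : P → St → Prop // Good step q D},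
      ∀ r b c, D.1 r b → D'.1 r c → step r b c := by
    rintro ⟨D, hD⟩
    obtain ⟨D', hD', hs⟩ := good_succ step hstep q D hD
    exact ⟨⟨D', hD'⟩, hs⟩
  choose nxt hnxt using hnext
  let E : ℕ → {D : P → St → Prop // Good step q D} := fun n =>
    Nat.rec ⟨fun r b => r ≤ q ∧ b = a, good_zero step a q h⟩ (fun _ D => nxt D) n
  have hE0 : (E 0).1 = fun r b => r ≤ q ∧ b = a := rfl
  have hEs : ∀ n, E (n + 1) = nxt (E n) := fun _ => rfl
  refine ⟨fun n =>
    { val := fun r b => (E n).1 r b ∨ ((¬ ∃ r', r' ≤ r ∧ r' ≤ q) ∧ b = a)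
      mono := ?_
      uniq := ?_
      dense := ?_ }, ?_, ?_⟩
  · rintro p q' b hq (hb | ⟨hb, hb'⟩)
    · exact Or.inl ((E n).2.mono p q' b hq hb)
    · exact Or.inr ⟨fun ⟨r', h1, h2⟩ => hb ⟨r', h1.trans hq, h2⟩, hb'⟩
  · rintro p b c (hb | ⟨hb, hb'⟩) (hc | ⟨hc, hc'⟩)
    · exact (E n).2.uniq p b c hb hc
    · exact absurd ⟨p, le_refl p, (E n).2.below p b hb⟩ hc
    · exact absurd ⟨p, le_refl p, (E n).2.below p c hc⟩ hb
    · rw [hb', hc']
  · intro p
    by_cases hp : ∃ r', r' ≤ p ∧ r' ≤ q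
    · obtain ⟨r', h1, h2⟩ := hp
      obtain ⟨r, hr, b, hb⟩ := (E n).2.dense r' h2
      exact ⟨r, hr.trans h1, b, Or.inl hb⟩
    · exact ⟨p, le_refl p, a, Or.inr ⟨hp, rfl⟩⟩
  · rintro r hr b (hb | ⟨-, hb⟩)
    · exact hb.2
    · exact hb
  · rintro n r hr b c (hb | ⟨hb, -⟩) (hc | ⟨hc, -⟩)
    · rw [hEs] at hc
      exact hnxt (E n) r b c hb hc
    · exact absurd ⟨r, le_refl r, hr⟩ hc
    · exact absurd ⟨r, le_refl r, hr⟩ hb
    · exact absurd ⟨r, le_refl r, hr⟩ hb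

end Pool.Agent.Helper85.BM
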