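import Pool.Agent.Helper85.BM.Main
import Pool.Agent.Helper85.BM.CCC
import Pool.Agent.Helper85.BM.RunName
import Pool.Agent.Helper85.BM.Free
import Pool.Agent.Helper85.BM.Large

/-!
# The principle is forced
-/

namespace Pool.Agent.Helper85.BM

open Cardinal

/-- The image of a name under a ground model function. -/
def Name.map {P : Type} [Preorder P] {S S' : Type} (N : Name P S) (φ : S → S') : Name P S' where
  val p a := ∃ b, N.val p b ∧ a = φ b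
  mono := by
    rintro p q a h ⟨b, hb, rfl⟩
    exact ⟨b, N.mono h hb, rfl⟩
  uniq := by
    rintro p a b ⟨c, hc, rfl⟩ ⟨d, hd, rfl⟩
    rw [N.uniq hc hd]
  dense := by
    intro p
    obtain ⟨q, hq, a, ha⟩ := N.dense p
    exact ⟨q, hq, φ a, a, ha, rfl⟩

variable {Λ : Type} [LinearOrder Λ]

/-- Ranks are bounded. -/
theorem exists_rank_bound {P St : Type} [Preorder P] (step : P → St → St → Prop) (a : St) (q : P)
    (h : ∀ p, p ≤ q → ¬ Bad step a p) :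
    ∃ α, ∀ p, p ≤ q → ∃ p', p' ≤ p ∧ ∃ γ, γ < α ∧ W step γ a p' := by
  classical
  have h1 : ∀ p : {p // p ≤ q}, ∃ γ : Ordinal.{0}, ∃ p', p' ≤ p.1 ∧ W step γ a p' := by
    intro p
    have := h p.1 p.2
    unfold Bad at this
    push_neg at this
    obtain ⟨γ, p', h1, h2⟩ := this
    exact ⟨γ, p', h1, h2⟩
  choose A hA using h1
  refine ⟨Order.succ (⨆ p, A p), fun p hp => ?_⟩
  obtain ⟨p', h1, h2⟩ := hA ⟨p, hp⟩
  refine ⟨p', h1, A ⟨p, hp⟩, ?_, h2⟩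
  exact Order.lt_succ_of_le (le_ciSup (Ordinal.bddAbove_of_small) _)

theorem forced_defeat [Nonempty Λ]
    (hΛ : ∀ s : Set Λ, #s ≤ 2 ^ (2 ^ ℵ₀ : Cardinal.{0}) → ∃ b, ∀ a ∈ s, a < b)
    (hΛ' : ∀ b : Λ, #(Set.Iic b) ≤ 2 ^ (2 ^ ℵ₀ : Cardinal.{0}))
    (T0 : Code Λ → Name (Cond Λ) (Code Λ)) (T : Code Λ → Code Λ → Name (Cond Λ) (Code Λ))
    (p : Cond Λ) :
    ∃ q, q ≤ p ∧ ∃ (U : ℕ → Name (Cond Λ) (Code Λ)) (β : Λ) (k : ℕ), ∀ r, r ≤ q →
      Losing β (fun i m => (fn β k i).val r m) (fun a c => (T0 a).val r c)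
        (fun a b c => (T a b).val r c) (fun n a => (U n).val r a) := by
  classical
  -- countable predense sets deciding the answers of the tactics
  have hA : ∀ (a b : Code Λ), ∃ A : Set (Cond Λ), A.Countable ∧
      (∀ r ∈ A, ∃ c, (T a b).val r c) ∧ ∀ q, ∃ r ∈ A, ∃ u, u ≤ r ∧ u ≤ q := fun a b =>
    exists_predense cond_ccc _ (fun q => (T a b).dense q)
  choose A hAc hAv hAd using hA
  -- supports
  obtain ⟨B, hBdef⟩ : ∃ B : Λ → Λ → Set Λ, ∀ β γ, B β γ =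
      ⋃ s : List ℕ, ⋃ s' : List ℕ, ⋃ r ∈ A (s, β) (s', γ), Prod.fst '' (r.F : Set (Λ × ℕ)) :=
    ⟨_, fun _ _ => rfl⟩
  have hBc : ∀ β γ, (B β γ).Countable := by
    intro β γ
    rw [hBdef]
    refine Set.countable_iUnion fun s => Set.countable_iUnion fun s' => ?_
    exact (hAc _ _).biUnion fun r _ => (r.F.countable_toSet).image _
  -- the closure function
  have hD : ∀ β : Λ, ∃ δ : Λ, (∀ s q c, (T0 (s, β)).val q c → c.2 < δ) ∧
      ∀ γ, γ ≤ β → ∀ s s' q c, (T (s, γ) (s', β)).val q c → c.2 < δ := by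
    intro β
    obtain ⟨X, hX⟩ : ∃ X : Set Λ, X = (⋃ s : List ℕ, Prod.snd '' {c | ∃ q, (T0 (s, β)).val q c}) ∪
        ⋃ γ : Set.Iic β, ⋃ s : List ℕ, ⋃ s' : List ℕ,
          Prod.snd '' {c | ∃ q, (T (s, γ.1) (s', β)).val q c} := ⟨_, rfl⟩
    have hX1 : #X ≤ 2 ^ (2 ^ ℵ₀ : Cardinal.{0}) := by
      have hℵ : ℵ₀ ≤ 2 ^ (2 ^ ℵ₀ : Cardinal.{0}) :=
        (cantor _).le.trans (cantor _).le
      rw [hX]
      refine (mk_union_le _ _).trans (add_le_of_le hℵ ?_ ?_)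
      · refine le_trans (Set.Countable.le_aleph0 ?_) hℵ
        exact Set.countable_iUnion fun s => (values_countable cond_ccc _).image _
      · refine (mk_iUnion_le _).trans ?_
        refine mul_le_of_le hℵ (hΛ' β) ?_
        refine ciSup_le' fun γ => le_trans (Set.Countable.le_aleph0 ?_) hℵ
        exact Set.countable_iUnion fun s => Set.countable_iUnion fun s' =>
          (values_countable cond_ccc _).image _
    obtain ⟨δ, hδ⟩ := hΛ X hX1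
    refine ⟨δ, fun s q c hc => hδ _ ?_, fun γ hγ s s' q c hc => hδ _ ?_⟩
    · rw [hX]
      exact Or.inl (Set.mem_iUnion.mpr ⟨s, c, ⟨q, hc⟩, rfl⟩)
    · rw [hX]
      exact Or.inr (Set.mem_iUnion.mpr ⟨⟨γ, hγ⟩, Set.mem_iUnion.mpr ⟨s, Set.mem_iUnion.mpr
        ⟨s', c, ⟨q, hc⟩, rfl⟩⟩⟩)
  choose D hD0 hD1 using hD
  -- countable predense sets deciding the ranks
  have hE : ∀ (x : Λ × ℕ) (a : State Λ), ∃ E : Set (Cond Λ), E.Countable ∧
      (∀ v ∈ E, (∃ α, Exact (stepRel T D x) α a v) ∨ Bad (stepRel T D x) a v) ∧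
      ∀ q, ∃ v ∈ E, ∃ u, u ≤ v ∧ u ≤ q := fun x a =>
    exists_predense cond_ccc _ (fun q => decide_rank (stepRel T D x) a q)
  choose E hEc hEv hEd using hE
  obtain ⟨C, hCdef⟩ : ∃ C : Λ → Λ → Set Λ, ∀ ε β, C ε β =
      ⋃ k : ℕ, ⋃ s : List ℕ, ⋃ σ : List ℕ, ⋃ v ∈ E (ε, k) (s, β, σ),
        Prod.fst '' (v.F : Set (Λ × ℕ)) := ⟨_, fun _ _ => rfl⟩
  have hCc : ∀ ε β, (C ε β).Countable := by
    intro ε β
    rw [hCdef]
    refine Set.countable_iUnion fun k => Set.countable_iUnion fun s =>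
      Set.countable_iUnion fun σ => ?_
    exact (hEc _ _).biUnion fun r _ => (r.F.countable_toSet).image _
  -- the free sequence
  obtain ⟨ε, b, hεb, hb, hbD, hεB, hfree⟩ := free_sequence hΛ B C hBc hCc D
  -- the first move
  obtain ⟨q1, hq1p, c0, hc0⟩ := (T0 ([], b 0)).dense p
  obtain ⟨q2, hq2q1, hq2m, hq2F, hq2R⟩ := exists_long q1 c0.1.length
  obtain ⟨k, hk⟩ : ∃ k, (ε, k) ∉ q2.F := by
    obtain ⟨k, hk⟩ := Infinite.exists_notMem_finset (q2.F.image Prod.snd)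
    refine ⟨k, fun h => hk ?_⟩
    exact Finset.mem_image.mpr ⟨_, h, rfl⟩
  obtain ⟨q3, hq3q2, hq3F, hq3m, hq3f, hq3R⟩ := exists_add q2 (ε, k) hk
    (fun i => c0.1.getD i 0)
  have hx3 : (ε, k) ∈ q3.F := by rw [hq3F]; exact Finset.mem_insert_self _ _
  have hq3q1 : q3 ≤ q1 := hq3q2.trans hq2q1
  -- there is a condition forcing an undefined rank
  obtain ⟨q4, hq4q3, hbad⟩ : ∃ q4, q4 ≤ q3 ∧ Bad (stepRel T D (ε, k)) ([], b 0, c0.1) q4 := by
    by_contra hcon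
    push_neg at hcon
    obtain ⟨α, hα⟩ := exists_rank_bound (stepRel T D (ε, k)) ([], b 0, c0.1) q3 hcon
    refine no_rank T D (ε, k) b B (C ε) hb hbD hεB hfree ?_ ?_ α 0 [] c0.1 q3 hx3 ?_ ?_ ?_ hα
    · intro n s s' q
      obtain ⟨r, hr, u, hur, huq⟩ := hAd (s, b n) (s', b (n+1)) q
      refine ⟨r, ⟨u, huq, hur⟩, fun y hy => ?_, hAv _ _ r hr⟩
      rw [hBdef]
      simp only [Set.mem_iUnion]
      exact ⟨s, s', r, hr, y, hy, rfl⟩
    · intro n s σ q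
      obtain ⟨v, hv, u, huv, huq⟩ := hEd (ε, k) (s, b n, σ) q
      refine ⟨v, ⟨u, huq, huv⟩, fun y hy => ?_, hEv _ _ v hv⟩
      rw [hCdef]
      simp only [Set.mem_iUnion]
      exact ⟨k, s, σ, v, hv, y, hy, rfl⟩
    · rintro y (rfl | hy)
      · exact Or.inl rfl
      · rw [hq3R] at hy
        exact absurd (q2.R_mem _ _ hy).1 hk
    · rw [hq3m]; exact hq2m
    · intro i v hv
      rw [hq3f]
      simp [List.getD, hv]
  -- the name of the run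
  obtain ⟨S, hS0, hS⟩ := run_of_bad (stepRel T D (ε, k)) (stepRel_mono T D (ε, k))
    ([], b 0, c0.1) q4 hbad
  refine ⟨q4, hq4q3.trans (hq3q1.trans hq1p), fun n => (S n).map (fun st => (st.1, st.2.1)), ε, k,
    fun r hr => ⟨?_, ?_, ?_, ?_⟩⟩
  · rintro a ⟨st, hst, rfl⟩
    rw [hS0 r hr st hst]
    exact hεb.le
  · rintro a b' c ⟨st, hst, rfl⟩ hc ⟨st', hst', rfl⟩
    have h0 := hS0 r hr st hst
    have hstep := hS 0 r hr st st' hst hst'
    subst h0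
    have hcc : c = c0 := (T0 ([], b 0)).uniq hc
      ((T0 ([], b 0)).mono (hr.trans (hq4q3.trans hq3q1)) hc0)
    subst hcc
    obtain ⟨h1, h2, ⟨w, hw, hw'⟩, -⟩ := hstep
    refine ⟨⟨w, hw, ?_⟩, h1.le, ?_⟩
    · simpa using hw'
    · exact ((hD0 _ _ _ _ hc).trans h2).le
  · rintro n a b' c d ⟨st, hst, rfl⟩ ⟨st', hst', rfl⟩ hc ⟨st'', hst'', rfl⟩
    obtain ⟨h1, h2, -, ⟨c', hc', hc''⟩, -⟩ := hS n r hr st st' hst hst'
    obtain ⟨k1, k2, ⟨w, hw, hw'⟩, -⟩ := hS (n+1) r hr st' st'' hst' hst''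
    have hcc : c = c' := (T _ _).uniq hc hc'
    subst hcc
    refine ⟨⟨w, hw, ?_⟩, k1.le, ?_⟩
    · show st''.1 = st'.1 ++ c.1 ++ w
      rw [hw', hc'']
    · exact ((hD1 _ _ h1.le _ _ _ _ hc).trans k2).le
  · rintro n a i v m ⟨st, hst, rfl⟩ hv ⟨hxm, him, hm⟩
    cases n with
    | zero =>
      rw [hS0 r hr st hst] at hv
      simp at hv
    | succ n =>
      obtain ⟨r', hr', st0, hst0⟩ := (S n).dense r
      obtain ⟨-, -, -, ⟨c', hc', hc''⟩, h5, h6, h7⟩ :=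
        hS n r' (hr'.trans hr) st0 st hst0 ((S (n+1)).mono hr' hst)
      have h8 : st.2.2[i]? = some v := by
        rw [hc'', List.getElem?_append_left (getElem_lt_length hv)]
        exact hv
      have h9 := h7 i v h8
      rw [(le_def.mp hr').2.2.1 _ hxm i him, hm] at h9
      exact h9

/-- **The forcing theorem**. -/
theorem forced_principle [Nonempty Λ]
    (hΛ : ∀ s : Set Λ, #s ≤ 2 ^ (2 ^ ℵ₀ : Cardinal.{0}) → ∃ b, ∀ a ∈ s, a < b)
    (hΛ' : ∀ b : Λ, #(Set.Iic b) ≤ 2 ^ (2 ^ ℵ₀ : Cardinal.{0})) :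
    Forced (Cond Λ) Λ fn :=
  ⟨fun β γ k h p => forced_chain β γ k h p, forced_defeat hΛ hΛ'⟩

end Pool.Agent.Helper85.BM
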