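import Mathlib

/-!
# Closing a set under operations, and a large linear order
-/

namespace Pool.Agent.Helper85.BM

open Cardinal

/-- The arities of the terms. -/
private def clArity {α σ : Type} (I : Type) : α ⊕ σ → Type
  | Sum.inl _ => I
  | Sum.inr _ => Empty

/-- The evaluation of the terms. -/
private def clEval {Λ I α : Type} (G : α → (I → Λ) → Λ) (S : Set Λ) :
    WType (clArity (α := α) (σ := S) I) → Λ
  | WType.mk (Sum.inl θ) f => G θ (fun i => clEval G S (f i))
  | WType.mk (Sum.inr s) _ => s.1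

/-- Closing a set under a small number of operations of small arity. -/
theorem exists_closed {Λ I α : Type} (G : α → (I → Λ) → Λ) (S : Set Λ) (κ : Cardinal.{0})
    (hκ : ℵ₀ ≤ κ) (hI : κ ^ #I ≤ κ) (hα : #α ≤ κ) (hS : #S ≤ κ) :
    ∃ N : Set Λ, S ⊆ N ∧ #N ≤ κ ∧ ∀ θ a, (∀ i, a i ∈ N) → G θ a ∈ N := by
  refine ⟨Set.range (clEval G S), ?_, ?_, ?_⟩
  · intro s hs
    exact ⟨WType.mk (Sum.inr ⟨s, hs⟩) Empty.elim, by rw [clEval]⟩
  · refine mk_range_le.trans (WType.cardinalMk_le_of_le ?_)
    have h1 : (sum fun a : α ⊕ S => κ ^ #(clArity I a)) ≤ sum fun _ : α ⊕ S => κ := by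
      refine sum_le_sum _ _ fun a => ?_
      cases a with
      | inl a => exact hI
      | inr s =>
        have h2 : #(clArity (α := α) (σ := S) I (Sum.inr s)) = 0 := by
          rw [mk_eq_zero_iff]
          exact inferInstanceAs (IsEmpty Empty)
        rw [h2, power_zero]
        exact one_le_aleph0.trans hκ
    refine h1.trans ?_
    rw [sum_const', mk_sum, lift_id, lift_id]
    calc (#α + #S) * κ ≤ (κ + κ) * κ := by gcongr
      _ = κ := by rw [add_eq_self hκ, mul_eq_self hκ]
  · intro θ a ha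
    choose f hf using ha
    refine ⟨WType.mk (Sum.inl θ) f, ?_⟩
    rw [clEval]
    congr 1
    funext i
    exact hf i

end Pool.Agent.Helper85.BM
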