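import Pool.Agent.Helper85.BM.Defs

/-!
# The forcing notion

A condition is a finite set `F` of points of `Λ × ℕ`, a length `m`, for each point of `F` a
sequence of length `m`, and a transitive relation `R` on `F` which strictly increases the first
coordinate and for which the sequences increase (pointwise).
-/

namespace Pool.Agent.Helper85.BM

variable {Λ : Type} [LinearOrder Λ]

/-- The conditions (only the values `f x i` with `x ∈ F` and `i < m` matter). -/
structure Cond (Λ : Type) [LinearOrder Λ] where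
  F : Finset (Λ × ℕ)
  m : ℕ
  f : Λ × ℕ → ℕ → ℕ
  R : Λ × ℕ → Λ × ℕ → Prop
  R_mem : ∀ x y, R x y → x ∈ F ∧ y ∈ F
  R_trans : ∀ x y z, R x y → R y z → R x z
  R_idx : ∀ x y, R x y → x.1 < y.1
  R_le : ∀ x y, R x y → ∀ i < m, f x i ≤ f y i

/-- `q ≤ p`: `q` is stronger. -/
instance : Preorder (Cond Λ) where
  le q p := p.F ⊆ q.F ∧ p.m ≤ q.m ∧ (∀ x ∈ p.F, ∀ i < p.m, q.f x i = p.f x i) ∧
    ∀ x y, p.R x y → q.R x y
  le_refl p := ⟨Finset.Subset.refl _, le_refl _, fun _ _ _ _ => rfl, fun _ _ h => h⟩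
  le_trans a b c h1 h2 := ⟨h2.1.trans h1.1, h2.2.1.trans h1.2.1,
    fun x hx i hi => (h1.2.2.1 x (h2.1 hx) i (lt_of_lt_of_le hi h2.2.1)).trans
      (h2.2.2.1 x hx i hi), fun x y h => h1.2.2.2 x y (h2.2.2.2 x y h)⟩

theorem le_def {p q : Cond Λ} : q ≤ p ↔ p.F ⊆ q.F ∧ p.m ≤ q.m ∧
    (∀ x ∈ p.F, ∀ i < p.m, q.f x i = p.f x i) ∧ ∀ x y, p.R x y → q.R x y := Iff.rfl

/-- The empty condition. -/
def Cond.empty : Cond Λ where
  F := ∅
  m := 0
  f := fun _ _ => 0
  R := fun _ _ => False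
  R_mem := fun _ _ h => h.elim
  R_trans := fun _ _ _ h _ => h.elim
  R_idx := fun _ _ h => h.elim
  R_le := fun _ _ h => h.elim

instance : Nonempty (Cond Λ) := ⟨Cond.empty⟩

/-- Lengthening a condition. -/
theorem exists_long (p : Cond Λ) (n : ℕ) : ∃ q : Cond Λ, q ≤ p ∧ n ≤ q.m ∧ q.F = p.F ∧ q.R = p.R := by
  refine ⟨{ F := p.F, m := max p.m n, f := fun x i => if i < p.m then p.f x i else 0, R := p.R,
            R_mem := p.R_mem, R_trans := p.R_trans, R_idx := p.R_idx, R_le := ?_ },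
    ?_, le_max_right _ _, rfl, rfl⟩
  · intro x y h i _
    by_cases hi : i < p.m
    · simp only [hi, if_true]
      exact p.R_le x y h i hi
    · simp only [hi, if_false]
      exact le_rfl
  · refine ⟨Finset.Subset.refl _, le_max_left _ _, fun x _ i hi => ?_, fun _ _ h => h⟩
    simp only [hi, if_true]

/-- Adding a new isolated point, with arbitrary values. -/
theorem exists_add (p : Cond Λ) (x : Λ × ℕ) (hx : x ∉ p.F) (g : ℕ → ℕ) :
    ∃ q : Cond Λ, q ≤ p ∧ q.F = insert x p.F ∧ q.m = p.m ∧ q.f x = g ∧ q.R = p.R := by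
  have hne : ∀ y ∈ p.F, y ≠ x := fun y hy h => hx (h ▸ hy)
  refine ⟨{ F := insert x p.F, m := p.m, f := Function.update p.f x g, R := p.R,
            R_mem := fun a b h => ⟨Finset.mem_insert_of_mem (p.R_mem a b h).1,
              Finset.mem_insert_of_mem (p.R_mem a b h).2⟩,
            R_trans := p.R_trans, R_idx := p.R_idx, R_le := ?_ },
    ?_, rfl, rfl, Function.update_self _ _ _, rfl⟩
  · intro a b h i hi
    rw [Function.update_of_ne (hne a (p.R_mem a b h).1),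
      Function.update_of_ne (hne b (p.R_mem a b h).2)]
    exact p.R_le a b h i hi
  · refine ⟨Finset.subset_insert _ _, le_rfl, fun y hy i _ => ?_, fun _ _ h => h⟩
    change Function.update p.f x g y i = p.f y i
    rw [Function.update_of_ne (hne y hy)]

/-- Making a point a member of the domain. -/
theorem exists_mem (p : Cond Λ) (x : Λ × ℕ) : ∃ q : Cond Λ, q ≤ p ∧ x ∈ q.F := by
  by_cases hx : x ∈ p.F
  · exact ⟨p, le_rfl, hx⟩
  · obtain ⟨q, hq, hF, -⟩ := exists_add p x hx (fun _ => 0)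
    exact ⟨q, hq, by rw [hF]; exact Finset.mem_insert_self _ _⟩

/-- Putting a new point with first coordinate `γ` above a given point. -/
theorem exists_above (p : Cond Λ) (β γ : Λ) (k : ℕ) (h : β < γ) :
    ∃ q : Cond Λ, q ≤ p ∧ ∃ k', q.R (β, k) (γ, k') := by
  obtain ⟨p₁, hp₁, hmem⟩ := exists_mem p (β, k)
  obtain ⟨k', hk'⟩ : ∃ k', (γ, k') ∉ p₁.F := by
    obtain ⟨k', hk'⟩ := Infinite.exists_notMem_finset (p₁.F.image Prod.snd)
    exact ⟨k', fun hc => hk' (Finset.mem_image_of_mem Prod.snd hc)⟩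
  have hne : ∀ y ∈ p₁.F, y ≠ (γ, k') := fun y hy hc => hk' (hc ▸ hy)
  have hb : (β, k) ≠ (γ, k') := hne _ hmem
  refine ⟨{ F := insert (γ, k') p₁.F, m := p₁.m,
            f := Function.update p₁.f (γ, k') (p₁.f (β, k)),
            R := fun z w => p₁.R z w ∨ (w = (γ, k') ∧ (z = (β, k) ∨ p₁.R z (β, k))),
            R_mem := ?_, R_trans := ?_, R_idx := ?_, R_le := ?_ }, ?_, k', Or.inr ⟨rfl, Or.inl rfl⟩⟩
  · rintro x y (hxy | ⟨rfl, rfl | hx⟩)
    · exact ⟨Finset.mem_insert_of_mem (p₁.R_mem x y hxy).1,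
        Finset.mem_insert_of_mem (p₁.R_mem x y hxy).2⟩
    · exact ⟨Finset.mem_insert_of_mem hmem, Finset.mem_insert_self _ _⟩
    · exact ⟨Finset.mem_insert_of_mem (p₁.R_mem _ _ hx).1, Finset.mem_insert_self _ _⟩
  · rintro x y z (hxy | ⟨rfl, hx⟩) (hyz | ⟨rfl, hy⟩)
    · exact Or.inl (p₁.R_trans x y z hxy hyz)
    · rcases hy with rfl | hy
      · exact Or.inr ⟨rfl, Or.inr hxy⟩
      · exact Or.inr ⟨rfl, Or.inr (p₁.R_trans _ _ _ hxy hy)⟩
    · exact absurd (p₁.R_mem _ _ hyz).1 hk'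
    · rcases hy with hy | hy
      · exact absurd hy.symm hb
      · exact absurd (p₁.R_mem _ _ hy).1 hk'
  · rintro x y (hxy | ⟨rfl, rfl | hx⟩)
    · exact p₁.R_idx x y hxy
    · exact h
    · exact lt_trans (p₁.R_idx _ _ hx) h
  · rintro x y (hxy | ⟨rfl, rfl | hx⟩) i hi
    · rw [Function.update_of_ne (hne x (p₁.R_mem x y hxy).1),
        Function.update_of_ne (hne y (p₁.R_mem x y hxy).2)]
      exact p₁.R_le x y hxy i hi
    · rw [Function.update_of_ne hb, Function.update_self]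
    · rw [Function.update_of_ne (hne x (p₁.R_mem _ _ hx).1), Function.update_self]
      exact p₁.R_le _ _ hx i hi
  · refine le_trans (b := p₁) ⟨Finset.subset_insert _ _, le_rfl, fun y hy i _ => ?_,
      fun _ _ h => Or.inl h⟩ hp₁
    change Function.update p₁.f (γ, k') (p₁.f (β, k)) y i = p₁.f y i
    rw [Function.update_of_ne (hne y hy)]

/-- The name of the value at `i` of the generic function `f β k`. -/
def fn (β : Λ) (k i : ℕ) : Name (Cond Λ) ℕ where
  val p a := (β, k) ∈ p.F ∧ i < p.m ∧ p.f (β, k) i = a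
  mono := by
    rintro p q a hqp ⟨h1, h2, h3⟩
    exact ⟨hqp.1 h1, lt_of_lt_of_le h2 hqp.2.1, (hqp.2.2.1 _ h1 i h2).trans h3⟩
  uniq := by
    rintro p a b ⟨_, _, h3⟩ ⟨_, _, h3'⟩
    exact h3.symm.trans h3'
  dense := by
    intro p
    obtain ⟨q, hq, hm⟩ := exists_mem p (β, k)
    obtain ⟨r, hr, hn, hF, -⟩ := exists_long q (i + 1)
    exact ⟨r, le_trans hr hq, r.f (β, k) i, by rw [hF]; exact hm, hn, rfl⟩

/-- The chain property is forced. -/
theorem forced_chain (β γ : Λ) (k : ℕ) (h : β < γ) (p : Cond Λ) :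
    ∃ q, q ≤ p ∧ ∃ k', ∀ r, r ≤ q →
      Below (fun i m => (fn β k i).val r m) (fun i m => (fn γ k' i).val r m) := by
  obtain ⟨q, hq, k', hR⟩ := exists_above p β γ k h
  refine ⟨q, hq, k', fun r hr i m m' hm hm' => ?_⟩
  obtain ⟨_, h2, h3⟩ := hm
  obtain ⟨_, _, h3'⟩ := hm'
  rw [← h3, ← h3']
  exact r.R_le _ _ (hr.2.2.2 _ _ hR) i h2

end Pool.Agent.Helper85.BM
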