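import Mathlib

/-!
# The Banach-Mazur game and 2-tactics: names, forced statements

Definitions for the consistency of a negative answer to the question of Debs.
-/

namespace Pool.Agent.Helper85.BM

/-! ## The Banach-Mazur game on a space -/

/-- Player II has a winning strategy in the Banach-Mazur game on `X` (the hypothesis of Q1). -/
def SecondWins (X : Type) [TopologicalSpace X] : Prop :=
  ∃ σ : (n : ℕ) → (Fin (n+1) → Set X) → Set X,
    (∀ (n : ℕ) (h : Fin (n+1) → Set X), IsOpen (h (Fin.last n)) → (h (Fin.last n)).Nonempty →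
       IsOpen (σ n h) ∧ (σ n h).Nonempty ∧ σ n h ⊆ h (Fin.last n)) ∧
    (∀ U : ℕ → Set X, (∀ n, IsOpen (U n) ∧ (U n).Nonempty) →
       (∀ n, U (n+1) ⊆ σ n (fun i => U i.val)) → (⋂ n, U n).Nonempty)

/-- Player II has a winning 2-tactic in the Banach-Mazur game on `X` (the conclusion of Q1). -/
def TwoTactic (X : Type) [TopologicalSpace X] : Prop :=
  ∃ τ₀ : Set X → Set X, ∃ τ : Set X → Set X → Set X,
    (∀ A : Set X, IsOpen A → A.Nonempty → IsOpen (τ₀ A) ∧ (τ₀ A).Nonempty ∧ τ₀ A ⊆ A) ∧
    (∀ A B : Set X, IsOpen B → B.Nonempty → IsOpen (τ A B) ∧ (τ A B).Nonempty ∧ τ A B ⊆ B) ∧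
    (∀ U : ℕ → Set X, (∀ n, IsOpen (U n) ∧ (U n).Nonempty) →
       U 1 ⊆ τ₀ (U 0) → (∀ n, U (n+2) ⊆ τ (U n) (U (n+1))) → (⋂ n, U n).Nonempty)

/-! ## Codes -/

/-- A code of a basic open set: `(s, β)` codes the set of all `r` in Baire space which extend `s`
and are not below `f β k` for any `k`. -/
abbrev Code (Λ : Type) := List ℕ × Λ

/-- I has played the set coded by `a`, II has answered with the set coded by
`(a.1 ++ c.1, max a.2 c.2)`; now I may play the set coded by `b` (with a strictly longer
sequence). -/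
def Legal {Λ : Type} [LinearOrder Λ] (a c b : Code Λ) : Prop :=
  (∃ w : List ℕ, w ≠ [] ∧ b.1 = a.1 ++ c.1 ++ w) ∧ a.2 ≤ b.2 ∧ c.2 ≤ b.2

/-- Here `T0 a c` and `T a b c` are (the graphs of) a 2-tactic of II on codes, `U n a` says that
the `n`-th move of I is `a`, and `g i m` says that the `i`-th value of the function `g` is `m`.
The run is legal, II follows her 2-tactic, the second coordinate of the first move is at least `β`,
and the sequences played by I stay below `g`. -/
def Losing {Λ : Type} [LinearOrder Λ] (β : Λ) (g : ℕ → ℕ → Prop)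
    (T0 : Code Λ → Code Λ → Prop) (T : Code Λ → Code Λ → Code Λ → Prop)
    (U : ℕ → Code Λ → Prop) : Prop :=
  (∀ a, U 0 a → β ≤ a.2) ∧
  (∀ a b c, U 0 a → T0 a c → U 1 b → Legal a c b) ∧
  (∀ n a b c d, U n a → U (n+1) b → T a b c → U (n+2) d → Legal b c d) ∧
  (∀ n a i v m, U n a → a.1[i]? = some v → g i m → v ≤ m)

/-- The function `g` is below the function `h` (both given by their graphs). -/
def Below (g h : ℕ → ℕ → Prop) : Prop := ∀ i m m', g i m → h i m' → m ≤ m'

/-- The principle, for a family of functions `f β k`: the `σ`-compact sets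
`M β = ⋃ k, {r | r ≤ f β k}` increase with `β`, and every 2-tactic of II on codes is defeated by
some run whose sequences stay below some `f β k`. -/
def Principle (Λ : Type) [LinearOrder Λ] (f : Λ → ℕ → ℕ → ℕ) : Prop :=
  (∀ β γ k, β < γ → ∃ k', Below (fun i m => f β k i = m) (fun i m => f γ k' i = m)) ∧
  ∀ (T0 : Code Λ → Code Λ) (T : Code Λ → Code Λ → Code Λ),
    ∃ (U : ℕ → Code Λ) (β : Λ) (k : ℕ),
      Losing β (fun i m => f β k i = m) (fun a c => T0 a = c) (fun a b c => T a b = c)
        (fun n a => U n = a)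

/-! ## Forcing -/

/-- The countable chain condition. -/
def CCC (P : Type) [Preorder P] : Prop :=
  ∀ A : Set P, (∀ a ∈ A, ∀ b ∈ A, a ≠ b → ¬ ∃ r, r ≤ a ∧ r ≤ b) → A.Countable

/-- A name for an element of the ground model set `S`: `val p a` says that the condition `p`
decides that the value is `a`; densely many conditions decide the value. -/
structure Name (P : Type) [Preorder P] (S : Type) where
  val : P → S → Prop
  mono : ∀ {p q : P} {a : S}, q ≤ p → val p a → val q a
  uniq : ∀ {p : P} {a b : S}, val p a → val p b → a = b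
  dense : ∀ p : P, ∃ q, q ≤ p ∧ ∃ a, val q a

/-- The forcing notion `P` forces the principle for the family named by `f`. -/
def Forced (P : Type) [Preorder P] (Λ : Type) [LinearOrder Λ] (f : Λ → ℕ → ℕ → Name P ℕ) : Prop :=
  (∀ β γ k, β < γ → ∀ p : P, ∃ q, q ≤ p ∧ ∃ k', ∀ r, r ≤ q →
    Below (fun i m => (f β k i).val r m) (fun i m => (f γ k' i).val r m)) ∧
  ∀ (T0 : Code Λ → Name P (Code Λ)) (T : Code Λ → Code Λ → Name P (Code Λ)) (p : P),
    ∃ q, q ≤ p ∧ ∃ (U : ℕ → Name P (Code Λ)) (β : Λ) (k : ℕ), ∀ r, r ≤ q →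
      Losing β (fun i m => (f β k i).val r m) (fun a c => (T0 a).val r c)
        (fun a b c => (T a b).val r c) (fun n a => (U n).val r a)

private lemma val_unit_iff {S : Type} (N : Name Unit S) {a : S} (h : N.val () a) (b : S) :
    N.val () b ↔ a = b :=
  ⟨fun h' => N.uniq h h', fun e => e ▸ h⟩

private lemma exists_val_unit {S : Type} (N : Name Unit S) : ∃ a, N.val () a := by
  obtain ⟨q, _, a, h⟩ := N.dense ()
  exact ⟨a, h⟩

private def constName {S : Type} (a : S) : Name Unit S where
  val := fun _ c => a = c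
  mono := fun _ h => h
  uniq := fun h h' => h.symm.trans h'
  dense := fun p => ⟨p, le_rfl, a, rfl⟩

/-- Sanity check: for the trivial forcing notion, `Forced` is `Principle`. -/
theorem forced_unit_iff (Λ : Type) [LinearOrder Λ] (f : Λ → ℕ → ℕ → Name Unit ℕ)
    (g : Λ → ℕ → ℕ → ℕ) (hg : ∀ β k i, (f β k i).val () (g β k i)) :
    Forced Unit Λ f ↔ Principle Λ g := by
  have hf : ∀ β k, (fun i m => (f β k i).val () m) = (fun i m => g β k i = m) := by
    intro β k
    funext i m
    exact propext (val_unit_iff _ (hg β k i) m)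
  constructor
  · rintro ⟨h1, h2⟩
    refine ⟨?_, ?_⟩
    · intro β γ k hβγ
      obtain ⟨q, _, k', h⟩ := h1 β γ k hβγ ()
      refine ⟨k', ?_⟩
      have h' := h () trivial
      rw [hf, hf] at h'
      exact h'
    · intro T0 T
      obtain ⟨q, _, U, β, k, h⟩ := h2 (fun a => constName (T0 a)) (fun a b => constName (T a b)) ()
      choose u hu using fun n => exists_val_unit (U n)
      refine ⟨u, β, k, ?_⟩
      have h' := h () trivial
      have hU : (fun n a => (U n).val () a) = (fun n a => u n = a) := by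
        funext n a
        exact propext (val_unit_iff _ (hu n) a)
      rw [hf, hU] at h'
      exact h'
  · rintro ⟨h1, h2⟩
    refine ⟨?_, ?_⟩
    · intro β γ k hβγ p
      obtain ⟨k', h⟩ := h1 β γ k hβγ
      refine ⟨(), trivial, k', ?_⟩
      rintro ⟨⟩ _
      rw [hf, hf]
      exact h
    · intro T0 T p
      choose t0 ht0 using fun a => exists_val_unit (T0 a)
      choose t ht using fun a b => exists_val_unit (T a b)
      obtain ⟨U, β, k, h⟩ := h2 t0 t
      refine ⟨(), trivial, fun n => constName (U n), β, k, ?_⟩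
      rintro ⟨⟩ _
      have e0 : (fun a c => (T0 a).val () c) = (fun a c => t0 a = c) := by
        funext a c
        exact propext (val_unit_iff _ (ht0 a) c)
      have e1 : (fun a b c => (T a b).val () c) = (fun a b c => t a b = c) := by
        funext a b c
        exact propext (val_unit_iff _ (ht a b) c)
      rw [hf, e0, e1]
      exact h

end Pool.Agent.Helper85.BM
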