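import Pool.Agent.Helper85.BM.Closed

/-!
# The second reflecting set
-/

namespace Pool.Agent.Helper85.BM

open Cardinal

/-- Given `N`, `g` as in `exists_N2`, there are a subset `N₁` of `N`, closed under the operations
`c n` and `D`, and a point `g₁` of `N` above `N₁` which has the same type as `g` over `N₁`, such
that `N₁` reflects the properties needed in the construction of the free sequence. -/
theorem exists_N1 {Λ : Type} [LinearOrder Λ]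
    (I : Type) (hI : #I = 2 ^ ℵ₀) (B : Λ → Λ → Set Λ) (c : ℕ → Λ → Λ → Λ) (D : Λ → Λ)
    (N : Set Λ) (g : Λ) (hne : N.Nonempty)
    (hc : ∀ n, ∀ a ∈ N, ∀ b ∈ N, c n a b ∈ N) (hD : ∀ a ∈ N, D a ∈ N)
    (hN : ∀ a : I → Λ, (∀ i, a i ∈ N) → ∃ g₁ ∈ N, (∀ i, a i < g₁) ∧
        ∀ i j, a j ∈ B (a i) g₁ ↔ a j ∈ B (a i) g) :
    ∃ (N₁ : Set Λ) (g₁ : Λ), N₁ ⊆ N ∧ g₁ ∈ N ∧ N₁.Nonempty ∧ (∀ a ∈ N₁, a < g₁) ∧
      (∀ n, ∀ a ∈ N₁, ∀ b ∈ N₁, c n a b ∈ N₁) ∧ (∀ a ∈ N₁, D a ∈ N₁) ∧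
      (∀ a ∈ N₁, ∀ b ∈ N₁, b ∈ B a g₁ ↔ b ∈ B a g) ∧
      -- upper bounds of sequences
      (∀ z : ℕ → Λ, (∀ n, z n ∈ N₁) → ∃ γ ∈ N₁, ∀ n, z n < γ) ∧
      -- reflection, without parameter `β`
      (∀ y z : ℕ → Λ, (∀ n, y n ∈ N₁) → (∀ n, z n ∈ N₁) →
        (∃ γ ∈ N, (∀ n, z n < γ) ∧ ∀ n, y n ∉ B γ g) →
        ∃ γ ∈ N₁, (∀ n, z n < γ) ∧ ∀ n, y n ∉ B γ g) ∧
      -- reflection, with parameter `β`
      (∀ β ∈ N₁, ∀ x y z : ℕ → Λ, (∀ n, x n ∈ N₁) → (∀ n, y n ∈ N₁) → (∀ n, z n ∈ N₁) →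
        (∃ γ ∈ N, (∀ n, z n < γ) ∧ (∀ n, x n ∉ B β γ) ∧ ∀ n, y n ∉ B γ g) →
        ∃ γ ∈ N₁, (∀ n, z n < γ) ∧ (∀ n, x n ∉ B β γ) ∧ ∀ n, y n ∉ B γ g) := by
  classical
  obtain ⟨n0, hn0⟩ := hne
  -- a surjection from `I` onto the natural numbers
  have hIne : Nonempty I := by
    rw [← mk_ne_zero_iff, hI]
    exact (Cardinal.power_ne_zero _ two_ne_zero)
  have hsurN : ∃ e : I → ℕ, Function.Surjective e := by
    have h1 : #ℕ ≤ #I := by
      rw [hI, mk_nat]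
      exact (Cardinal.cantor _).le
    obtain ⟨f⟩ := Cardinal.le_def _ _ |>.1 h1
    exact ⟨Function.invFun f, Function.invFun_surjective f.injective⟩
  have hub : ∀ z : ℕ → Λ, (∀ n, z n ∈ N) → ∃ γ ∈ N, ∀ n, z n < γ := by
    intro z hz
    obtain ⟨e, he⟩ := hsurN
    obtain ⟨γ, hγ, h1, -⟩ := hN (fun i => z (e i)) (fun i => hz _)
    refine ⟨γ, hγ, fun n => ?_⟩
    obtain ⟨i, rfl⟩ := he n
    exact h1 i
  -- the relations
  let Rel : ℕ → (ℕ → Λ) → Λ → Prop := fun k w γ =>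
    match k with
    | 0 => ∀ n, w n < γ
    | 1 => (∀ n, w (2 * n + 1) < γ) ∧ ∀ n, w (2 * n) ∉ B γ g
    | 2 => (∀ n, w (3 * n + 3) < γ) ∧ (∀ n, w (3 * n + 1) ∉ B (w 0) γ) ∧ ∀ n, w (3 * n + 2) ∉ B γ g
    | 3 => γ = D (w 0)
    | (n + 4) => γ = c n (w 0) (w 1)
  let G : ℕ → (ℕ → Λ) → Λ := fun k w =>
    if h : ∃ γ ∈ N, Rel k w γ then h.choose else n0
  have hGN : ∀ k w, G k w ∈ N := by
    intro k w
    by_cases h : ∃ γ ∈ N, Rel k w γ
    · simp only [G, dif_pos h]; exact h.choose_spec.1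
    · simp only [G, dif_neg h]; exact hn0
  have hGR : ∀ k w, (∃ γ ∈ N, Rel k w γ) → Rel k w (G k w) := by
    intro k w h
    simp only [G, dif_pos h]; exact h.choose_spec.2
  have hκ : ℵ₀ ≤ (2 ^ ℵ₀ : Cardinal.{0}) := (Cardinal.cantor _).le
  obtain ⟨N', hS, hN'card, hclos⟩ := exists_closed (Λ := Λ) (I := ℕ) (α := ℕ) G {n0} (2 ^ ℵ₀) hκ
    (by rw [mk_nat, ← Cardinal.power_mul, Cardinal.aleph0_mul_aleph0])
    (by rw [mk_nat]; exact hκ)
    (by rw [mk_singleton]; exact Cardinal.one_le_aleph0.trans hκ)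
  have key : ∀ k (w : ℕ → Λ), (∀ n, w n ∈ N' ∩ N) → (∃ γ ∈ N, Rel k w γ) →
      ∃ γ ∈ N' ∩ N, Rel k w γ := fun k w hw h =>
    ⟨G k w, ⟨hclos k w fun n => (hw n).1, hGN k w⟩, hGR k w h⟩
  have hmem0 : n0 ∈ N' ∩ N := ⟨hS rfl, hn0⟩
  -- the set is a range of a map from `I`
  have hcard : #(N' ∩ N : Set Λ) ≤ #I := by
    rw [hI]
    exact (Cardinal.mk_le_mk_of_subset Set.inter_subset_left).trans hN'card
  obtain ⟨a, ha⟩ : ∃ a : I → (N' ∩ N : Set Λ), Function.Surjective a := by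
    haveI : Nonempty (N' ∩ N : Set Λ) := ⟨⟨n0, hmem0⟩⟩
    obtain ⟨f⟩ := Cardinal.le_def _ _ |>.1 hcard
    exact ⟨Function.invFun f, Function.invFun_surjective f.injective⟩
  obtain ⟨g₁, hg₁, hlt, htype⟩ := hN (fun i => (a i : Λ)) (fun i => (a i).2.2)
  refine ⟨N' ∩ N, g₁, Set.inter_subset_right, hg₁, ⟨n0, hmem0⟩, ?_, ?_, ?_, ?_, ?_, ?_, ?_⟩
  · intro b hb
    obtain ⟨i, hi⟩ := ha ⟨b, hb⟩
    have := hlt i
    rwa [hi] at this
  · intro n b hb b' hb'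
    obtain ⟨γ, hγ, h⟩ := key (n + 4) (fun m => if m = 0 then b else b')
      (fun m => by split_ifs; exacts [hb, hb'])
      ⟨c n b b', hc n b hb.2 b' hb'.2, by simp [Rel]⟩
    have h' : γ = c n b b' := by simpa [Rel] using h
    exact h' ▸ hγ
  · intro b hb
    obtain ⟨γ, hγ, h⟩ := key 3 (fun _ => b) (fun _ => hb) ⟨D b, hD b hb.2, by simp [Rel]⟩
    have h' : γ = D b := by simpa [Rel] using h
    exact h' ▸ hγ
  · intro b hb b' hb'
    obtain ⟨i, hi⟩ := ha ⟨b, hb⟩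
    obtain ⟨j, hj⟩ := ha ⟨b', hb'⟩
    have := htype i j
    rwa [hi, hj] at this
  · intro z hz
    exact key 0 z hz (hub z fun n => (hz n).2)
  · rintro y z hy hz ⟨γ, hγ, h1, h2⟩
    have e1 : ∀ n, (2 * n + 1) % 2 = 1 := fun n => by omega
    have e2 : ∀ n, (2 * n) % 2 = 0 := fun n => by omega
    have e3 : ∀ n, (2 * n + 1) / 2 = n := fun n => by omega
    have e4 : ∀ n, (2 * n) / 2 = n := fun n => by omega
    let w : ℕ → Λ := fun m => if m % 2 = 0 then y (m / 2) else z (m / 2)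
    have w1 : ∀ n, w (2 * n + 1) = z n := fun n => by simp [w, e1, e3]
    have w2 : ∀ n, w (2 * n) = y n := fun n => by simp [w, e2, e4]
    obtain ⟨γ', hγ', h'⟩ := key 1 w (fun m => by simp only [w]; split_ifs; exacts [hy _, hz _])
      ⟨γ, hγ, fun n => by rw [w1]; exact h1 n, fun n => by rw [w2]; exact h2 n⟩
    refine ⟨γ', hγ', fun n => ?_, fun n => ?_⟩
    · have := h'.1 n; rwa [w1] at this
    · have := h'.2 n; rwa [w2] at this
  · rintro β hβ x y z hx hy hz ⟨γ, hγ, h1, h2, h3⟩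
    let w : ℕ → Λ := fun m => if m = 0 then β else
      if m % 3 = 1 then x ((m - 1) / 3) else if m % 3 = 2 then y ((m - 2) / 3) else z ((m - 3) / 3)
    have w0 : w 0 = β := by simp [w]
    have w1 : ∀ n, w (3 * n + 1) = x n := fun n => by
      have e1 : (3 * n + 1) % 3 = 1 := by omega
      have e2 : (3 * n + 1 - 1) / 3 = n := by omega
      simp only [w, e1, e2]; simp
    have w2 : ∀ n, w (3 * n + 2) = y n := fun n => by
      have e1 : (3 * n + 2) % 3 = 2 := by omega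
      have e2 : (3 * n + 2 - 2) / 3 = n := by omega
      simp only [w, e1, e2]; simp
    have w3 : ∀ n, w (3 * n + 3) = z n := fun n => by
      have e1 : (3 * n + 3) % 3 = 0 := by omega
      have e2 : (3 * n + 3 - 3) / 3 = n := by omega
      simp only [w, e1, e2]; simp
    obtain ⟨γ', hγ', h'⟩ := key 2 w
      (fun m => by simp only [w]; split_ifs; exacts [hβ, hx _, hy _, hz _])
      ⟨γ, hγ, fun n => by rw [w3]; exact h1 n, fun n => by rw [w0, w1]; exact h2 n,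
        fun n => by rw [w2]; exact h3 n⟩
    refine ⟨γ', hγ', fun n => ?_, fun n => ?_, fun n => ?_⟩
    · have := h'.1 n; rwa [w3] at this
    · have := h'.2.1 n; rwa [w0, w1] at this
    · have := h'.2.2 n; rwa [w2] at this

end Pool.Agent.Helper85.BM
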