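import Pool.Agent.Helper85.BM.Predense

/-!
# Ranks of states

`step p a b` : the condition `p` decides that `b` is a possible next state after `a`.
`W step α a q` : `q` forces that the rank of `a` (in the tree of continuations) is at most `α`.
-/

namespace Pool.Agent.Helper85.BM

universe u

variable {P St : Type} [Preorder P] (step : P → St → St → Prop)

/-- `q` forces that the rank of the state `a` is at most `α`. -/
def W (α : Ordinal.{0}) (a : St) (q : P) : Prop :=
  ∀ q', q' ≤ q → ∀ b, step q' a b → ∃ q'', q'' ≤ q' ∧ ∃ γ, ∃ _ : γ < α, W γ b q''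
termination_by α

/-- `q` forces that the rank of `a` is exactly `α`. -/
def Exact (α : Ordinal.{0}) (a : St) (q : P) : Prop :=
  W step α a q ∧ ∀ γ, γ < α → ∀ r, r ≤ q → ¬ W step γ a r

/-- `q` forces that the rank of `a` is undefined. -/
def Bad (a : St) (q : P) : Prop := ∀ α, ∀ r, r ≤ q → ¬ W step α a r

theorem W_mono {α : Ordinal.{0}} {a : St} {q r : P} (h : r ≤ q) (hW : W step α a q) :
    W step α a r := by
  rw [W] at hW ⊢
  intro q' hq' b hb
  exact hW q' (le_trans hq' h) b hb

theorem Bad_mono {a : St} {q r : P} (h : r ≤ q) (hW : Bad step a q) : Bad step a r := by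
  intro α s hs
  exact hW α s (le_trans hs h)

/-- Densely many conditions decide the rank. -/
theorem decide_rank (a : St) (q : P) :
    ∃ r, r ≤ q ∧ ((∃ α, Exact step α a r) ∨ Bad step a r) := by
  by_cases h : ∃ α : Ordinal.{0}, ∃ r, r ≤ q ∧ W step α a r
  · obtain ⟨α, hα, hmin⟩ := WellFounded.has_min Ordinal.lt_wf
      {α : Ordinal.{0} | ∃ r, r ≤ q ∧ W step α a r} h
    obtain ⟨r, hr, hW⟩ := hα
    refine ⟨r, hr, Or.inl ⟨α, hW, ?_⟩⟩
    intro γ hγ s hs hWs
    exact hmin γ ⟨s, le_trans hs hr, hWs⟩ hγ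
  · refine ⟨q, le_rfl, Or.inr ?_⟩
    intro α r hr hW
    exact h ⟨α, r, hr, hW⟩

/-- If the rank of `a` is undefined then there is a next state with undefined rank. -/
theorem Bad_step {a : St} {q : P} (h : Bad step a q) (p : P) (hp : p ≤ q) :
    ∃ r, r ≤ p ∧ ∃ b, step r a b ∧ Bad step b r := by
  classical
  by_contra hcon
  have h1 : ∀ r, r ≤ p → ∀ b, step r a b → ∃ α : Ordinal.{0}, ∃ s, s ≤ r ∧ W step α b s := by
    intro r hr b hb
    by_contra hc
    refine hcon ⟨r, hr, b, hb, ?_⟩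
    intro α s hs hW
    exact hc ⟨α, s, hs, hW⟩
  let f : P × St → Ordinal.{0} := fun x =>
    if hx : ∃ α : Ordinal.{0}, ∃ s, s ≤ x.1 ∧ W step α x.2 s then hx.choose else 0
  refine h (Order.succ (⨆ x, f x)) p hp ?_
  rw [W]
  intro q' hq' b hb
  have hx := h1 q' hq' b hb
  obtain ⟨s, hs, hW⟩ := hx.choose_spec
  refine ⟨s, hs, hx.choose, ?_, hW⟩
  rw [Order.lt_succ_iff]
  have h2 : f (q', b) = hx.choose := by
    simp only [f]
    rw [dif_pos hx]
  rw [← h2]
  exact Ordinal.le_iSup f (q', b)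

end Pool.Agent.Helper85.BM
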