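import Pool.Agent.Helper85.BM.AmalOne
import Pool.Agent.Helper85.BM.AmalTwo
import Pool.Agent.Helper85.BM.Rank

/-!
# The main argument
-/

namespace Pool.Agent.Helper85.BM

variable {Λ : Type} [LinearOrder Λ]

/-- A state: the last move `(s, β)` of I and the sequence of the answer of II. -/
abbrev State (Λ : Type) := List ℕ × Λ × List ℕ

/-- The condition `q` decides that after the state `a` the state `b` is possible, and that its
sequence is below the generic function attached to `x`. -/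
def stepRel (T : Code Λ → Code Λ → Name (Cond Λ) (Code Λ)) (D : Λ → Λ) (x : Λ × ℕ)
    (q : Cond Λ) (a b : State Λ) : Prop :=
  a.2.1 < b.2.1 ∧ D a.2.1 < b.2.1 ∧ (∃ w : List ℕ, w ≠ [] ∧ b.1 = a.2.2 ++ w) ∧
  (∃ c, (T (a.1, a.2.1) (b.1, b.2.1)).val q c ∧ b.2.2 = b.1 ++ c.1) ∧
  x ∈ q.F ∧ b.2.2.length ≤ q.m ∧ ∀ i v, b.2.2[i]? = some v → v ≤ q.f x i

theorem getElem_lt_length {l : List ℕ} {i v : ℕ} (h : l[i]? = some v) : i < l.length := by
  by_contra hc
  rw [List.getElem?_eq_none (not_lt.mp hc)] at h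
  exact absurd h (by simp)

theorem stepRel_mono (T : Code Λ → Code Λ → Name (Cond Λ) (Code Λ)) (D : Λ → Λ) (x : Λ × ℕ)
    (p q : Cond Λ) (a b : State Λ) (h : q ≤ p) (hs : stepRel T D x p a b) :
    stepRel T D x q a b := by
  obtain ⟨h1, h2, h3, ⟨c, hc, hc'⟩, h5, h6, h7⟩ := hs
  obtain ⟨hF, hm, hf, hR⟩ := le_def.mp h
  refine ⟨h1, h2, h3, ⟨c, (T _ _).mono h hc, hc'⟩, hF h5, h6.trans hm, fun i v hv => ?_⟩
  have hi : i < p.m := lt_of_lt_of_le (getElem_lt_length hv) h6
  rw [hf x h5 i hi]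
  exact h7 i v hv

/-- There is no suitable condition which forces that the rank of the `n`-th state is defined. -/
theorem no_rank (T : Code Λ → Code Λ → Name (Cond Λ) (Code Λ)) (D : Λ → Λ) (x : Λ × ℕ)
    (b : ℕ → Λ) (B : Λ → Λ → Set Λ) (C : Λ → Set Λ)
    (hb : ∀ n, b n < b (n+1)) (hD : ∀ n, D (b n) < b (n+1))
    (hx : ∀ n, x.1 ∉ B (b n) (b (n+1)))
    (hfree : ∀ n, ∀ i < n, ∀ ξ ∈ C (b i), x.1 ≤ ξ → ξ ∉ B (b n) (b (n+1)))
    (hB : ∀ n (s s' : List ℕ) (q : Cond Λ), ∃ r : Cond Λ, (∃ u, u ≤ q ∧ u ≤ r) ∧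
      (∀ y ∈ r.F, y.1 ∈ B (b n) (b (n+1))) ∧ ∃ c, (T (s, b n) (s', b (n+1))).val r c)
    (hC : ∀ n (s σ : List ℕ) (q : Cond Λ), ∃ v : Cond Λ, (∃ u, u ≤ q ∧ u ≤ v) ∧
      (∀ y ∈ v.F, y.1 ∈ C (b n)) ∧ ((∃ α, Exact (stepRel T D x) α (s, b n, σ) v) ∨
        Bad (stepRel T D x) (s, b n, σ) v)) :
    ∀ (α : Ordinal.{0}) (n : ℕ) (s σ : List ℕ) (q : Cond Λ), x ∈ q.F →
      (∀ y, Up q x y → y = x ∨ ∃ i < n, y.1 ∈ C (b i)) →
      σ.length ≤ q.m → (∀ i v, σ[i]? = some v → v ≤ q.f x i) →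
      ¬ ∀ p, p ≤ q → ∃ p', p' ≤ p ∧ ∃ γ, γ < α ∧ W (stepRel T D x) γ (s, b n, σ) p' := by
  intro α
  induction α using WellFoundedLT.induction with
  | ind α ih =>
    intro n s σ q hxq hup hlen hσ hdense
    -- the next move of I
    obtain ⟨L, hL1, hL2⟩ : ∃ L, q.m ≤ L ∧ σ.length + 1 ≤ L := ⟨max q.m (σ.length + 1),
      le_max_left _ _, le_max_right _ _⟩
    have hrep : List.replicate (L - σ.length) 0 ≠ [] := by
      intro h
      have := congrArg List.length h
      simp at this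
      omega
    obtain ⟨s', hs'⟩ : ∃ s', s' = σ ++ List.replicate (L - σ.length) 0 := ⟨_, rfl⟩
    have hs'len : s'.length = L := by rw [hs']; simp; omega
    obtain ⟨r, hqr, hrB, c, hc⟩ := hB n s s' q
    obtain ⟨σ', hσ'⟩ : ∃ σ', σ' = s' ++ c.1 := ⟨_, rfl⟩
    have hval : ∀ i v, σ'[i]? = some v → i < q.m → v ≤ q.f x i := by
      intro i v hv hi
      have hiL : i < s'.length := by rw [hs'len]; omega
      rw [hσ', List.getElem?_append_left hiL, hs'] at hv
      by_cases hi2 : i < σ.length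
      · rw [List.getElem?_append_left hi2] at hv
        exact hσ i v hv
      · rw [List.getElem?_append_right (not_lt.mp hi2), List.getElem?_replicate] at hv
        split_ifs at hv with h3
        simp at hv
        omega
    obtain ⟨q', hq'q, hq'r, hq'up, hsep, hq'len, hq'val⟩ := amal_one q r hqr x hxq
      (by
        intro y hy hyr
        have h1 := hrB y hyr
        rcases hup y hy with h | ⟨i, hi, h⟩
        · exact hx n (h ▸ h1)
        · have hle : x.1 ≤ y.1 := by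
            rcases hy with h' | h'
            · rw [h']
            · exact (q.R_idx _ _ h').le
          exact hfree n i hi _ h hle h1) σ' hval
    obtain ⟨v, hqv, hvC, hvdec⟩ := hC n s σ q'
    have hxq' : x ∈ q'.F := (le_def.mp hq'q).1 hxq
    obtain ⟨q'', hq''q', hq''v, hq''up⟩ := amal_two q' v hqv x hxq' hsep
    obtain ⟨p', hp', γ, hγ, hW⟩ := hdense q'' (hq''q'.trans hq'q)
    rcases hvdec with ⟨α', hα'⟩ | hbad
    · have hle : α' ≤ γ := by
        by_contra hlt
        exact hα'.2 γ (not_le.mp hlt) p' (hp'.trans hq''v) hW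
      obtain ⟨hF, hm, hf, hR⟩ := le_def.mp hq''q'
      have hlen'' : σ'.length ≤ q''.m := hq'len.trans hm
      have hval'' : ∀ i v, σ'[i]? = some v → v ≤ q''.f x i := by
        intro i v hv
        rw [hf x hxq' i (lt_of_lt_of_le (getElem_lt_length hv) hq'len)]
        exact hq'val i v hv
      refine ih α' (lt_of_le_of_lt hle hγ) (n+1) s' σ' q'' (hF hxq') ?_ hlen'' hval'' ?_
      · intro y hy
        rcases hq''up y hy with h | h
        · rcases hup y (hq'up y h) with h' | ⟨i, hi, h'⟩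
          · exact Or.inl h'
          · exact Or.inr ⟨i, by omega, h'⟩
        · exact Or.inr ⟨n, by omega, hvC y h⟩
      · intro p hp
        have hW' := hα'.1
        rw [W] at hW'
        have hstep : stepRel T D x p (s, b n, σ) (s', b (n+1), σ') := by
          refine stepRel_mono T D x q'' p _ _ hp ?_
          refine ⟨hb n, hD n, ⟨_, hrep, hs'⟩, ⟨c, (T _ _).mono (hq''q'.trans hq'r) hc, hσ'⟩,
            hF hxq', hlen'', hval''⟩
        obtain ⟨q3, hq3, γ', hγ', hW3⟩ := hW' p (hp.trans hq''v) _ hstep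
        exact ⟨q3, hq3, γ', hγ', hW3⟩
    · exact hbad γ p' (hp'.trans hq''v) hW

end Pool.Agent.Helper85.BM
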