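import Pool.Agent.Helper85.BM.Defs

/-!
# Consequences of the countable chain condition
-/

namespace Pool.Agent.Helper85.BM

variable {P : Type} [Preorder P]

/-- A maximal antichain of elements with the property `D` inside a downward closed class. -/
private theorem exists_max_aux (D B : P → Prop) (hB : ∀ p r, r ≤ p → B p → B r)
    (hD : ∀ p, B p → ∃ r, r ≤ p ∧ D r) :
    ∃ A : Set P, (∀ a ∈ A, B a ∧ D a) ∧ (∀ a ∈ A, ∀ b ∈ A, a ≠ b → ¬ ∃ r, r ≤ a ∧ r ≤ b) ∧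
      ∀ p, B p → ∃ a ∈ A, ∃ r, r ≤ a ∧ r ≤ p := by
  obtain ⟨A, hA⟩ := zorn_subset {A : Set P | (∀ a ∈ A, B a ∧ D a) ∧
    (∀ a ∈ A, ∀ b ∈ A, a ≠ b → ¬ ∃ r, r ≤ a ∧ r ≤ b)} (by
      intro c hc hch
      refine ⟨⋃₀ c, ⟨?_, ?_⟩, fun s hs => Set.subset_sUnion_of_mem hs⟩
      · rintro a ⟨s, hs, ha⟩
        exact (hc hs).1 a ha
      · rintro a ⟨s, hs, ha⟩ b ⟨t, ht, hb⟩ hab
        rcases hch.total hs ht with h | h
        · exact (hc ht).2 a (h ha) b hb hab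
        · exact (hc hs).2 a ha b (h hb) hab)
  refine ⟨A, hA.1.1, hA.1.2, ?_⟩
  intro p hp
  obtain ⟨r, hrp, hr⟩ := hD p hp
  by_contra hcon
  push Not at hcon
  have hinc : ∀ a ∈ A, ¬ ∃ s, s ≤ a ∧ s ≤ r := by
    rintro a ha ⟨s, hsa, hsr⟩
    exact hcon a ha s hsa (hsr.trans hrp)
  have hmem : insert r A ∈ {A : Set P | (∀ a ∈ A, B a ∧ D a) ∧
      (∀ a ∈ A, ∀ b ∈ A, a ≠ b → ¬ ∃ r, r ≤ a ∧ r ≤ b)} := by
    constructor
    · rintro a (rfl | ha)
      · exact ⟨hB p a hrp hp, hr⟩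
      · exact hA.1.1 a ha
    · rintro a (rfl | ha) b (rfl | hb) hab
      · exact absurd rfl hab
      · rintro ⟨s, hsa, hsb⟩
        exact hinc b hb ⟨s, hsb, hsa⟩
      · exact hinc a ha
      · exact hA.1.2 a ha b hb hab
  have hrA : r ∈ A := hA.2 hmem (Set.subset_insert r A) (Set.mem_insert r A)
  exact hinc r hrA ⟨r, le_refl r, le_refl r⟩

/-- A maximal antichain of elements with the property `D`, below the condition `q`. -/
theorem exists_max_antichain (D : P → Prop) (q : P) (hD : ∀ p, p ≤ q → ∃ r, r ≤ p ∧ D r) :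
    ∃ A : Set P, (∀ a ∈ A, a ≤ q ∧ D a) ∧ (∀ a ∈ A, ∀ b ∈ A, a ≠ b → ¬ ∃ r, r ≤ a ∧ r ≤ b) ∧
      ∀ p, p ≤ q → ∃ a ∈ A, ∃ r, r ≤ a ∧ r ≤ p :=
  exists_max_aux D (fun p => p ≤ q) (fun _ _ h1 h2 => h1.trans h2) hD

/-- In a ccc forcing notion every dense set contains a countable predense set. -/
theorem exists_predense (hP : CCC P) (D : P → Prop) (hD : ∀ p, ∃ r, r ≤ p ∧ D r) :
    ∃ A : Set P, A.Countable ∧ (∀ a ∈ A, D a) ∧ ∀ p, ∃ a ∈ A, ∃ r, r ≤ a ∧ r ≤ p := by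
  obtain ⟨A, h1, h2, h3⟩ := exists_max_aux D (fun _ => True) (fun _ _ _ h => h)
    (fun p _ => hD p)
  exact ⟨A, hP A h2, fun a ha => (h1 a ha).2, fun p => h3 p trivial⟩

/-- In a ccc forcing notion a name has only countably many possible values. -/
theorem values_countable (hP : CCC P) {S : Type} (N : Name P S) :
    {a | ∃ q, N.val q a}.Countable := by
  obtain ⟨A, hA, hAD, hpre⟩ := exists_predense hP (fun p => ∃ a, N.val p a) N.dense
  have hsub : {a | ∃ q, N.val q a} ⊆ ⋃ p ∈ A, {a | N.val p a} := by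
    rintro a ⟨q, hq⟩
    obtain ⟨p, hp, r, hrp, hrq⟩ := hpre q
    obtain ⟨b, hb⟩ := hAD p hp
    have h1 := N.mono hrp hb
    have h2 := N.mono hrq hq
    have h3 : b = a := N.uniq h1 h2
    subst h3
    exact Set.mem_biUnion hp hb
  refine Set.Countable.mono hsub (hA.biUnion ?_)
  intro p _
  apply Set.Subsingleton.countable
  intro a ha b hb
  exact N.uniq ha hb

end Pool.Agent.Helper85.BM
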