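import Pool.Agent.Helper85.BM.Defs

/-!
# The space

The topology on Baire space generated by the sets `[s] ∖ M β` and the cylinders `[s]`.
-/

namespace Pool.Agent.Helper85.BM

open TopologicalSpace

variable {Λ : Type}

/-- All extensions of the finite sequence `s`. -/
def cyl (s : List ℕ) : Set (ℕ → ℕ) := {r | ∀ i v, s[i]? = some v → r i = v}

/-- The set `M β`. -/
def MSet (f : Λ → ℕ → ℕ → ℕ) (β : Λ) : Set (ℕ → ℕ) := {r | ∃ k, ∀ i, r i ≤ f β k i}

/-- The basic open set coded by `a`. -/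
def basic (f : Λ → ℕ → ℕ → ℕ) (a : Code Λ) : Set (ℕ → ℕ) := cyl a.1 \ MSet f a.2

/-- The topology: generated by the basic sets and the cylinders. -/
def space (f : Λ → ℕ → ℕ → ℕ) : TopologicalSpace (ℕ → ℕ) :=
  generateFrom (Set.range (basic f) ∪ Set.range cyl)

/-- The chain property. -/
def Chain [LinearOrder Λ] (f : Λ → ℕ → ℕ → ℕ) : Prop :=
  ∀ β γ k, β < γ → ∃ k', Below (fun i m => f β k i = m) (fun i m => f γ k' i = m)

theorem cyl_append_subset (s w : List ℕ) : cyl (s ++ w) ⊆ cyl s := by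
  intro r hr i v hv
  refine hr i v ?_
  obtain ⟨hi, _⟩ := List.getElem?_eq_some_iff.1 hv
  rw [List.getElem?_append_left hi]
  exact hv

/-- The restriction of `x` to the first `N` places. -/
private def restr (x : ℕ → ℕ) (N : ℕ) : List ℕ := (List.range N).map x

private theorem restr_get {x : ℕ → ℕ} {N i : ℕ} (hi : i < N) : (restr x N)[i]? = some (x i) := by
  simp [restr, hi]

private theorem mem_cyl_restr (x : ℕ → ℕ) (N : ℕ) : x ∈ cyl (restr x N) := by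
  intro i v hv
  obtain ⟨hi, _⟩ := List.getElem?_eq_some_iff.1 hv
  have hi' : i < N := by simpa [restr] using hi
  rw [restr_get hi'] at hv
  exact Option.some.inj hv

private theorem cyl_restr_subset {x : ℕ → ℕ} {N : ℕ} {s : List ℕ} (hx : x ∈ cyl s)
    (hN : s.length ≤ N) : cyl (restr x N) ⊆ cyl s := by
  intro r hr i v hv
  obtain ⟨hi, _⟩ := List.getElem?_eq_some_iff.1 hv
  have h1 := hr i (x i) (restr_get (lt_of_lt_of_le hi hN))
  rw [h1]
  exact hx i v hv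

/-- Leave `M β` after `N` places. -/
private def leave (f : Λ → ℕ → ℕ → ℕ) (β : Λ) (x : ℕ → ℕ) (N : ℕ) : ℕ → ℕ :=
  fun i => if i < N then x i else f β (i - N) i + 1

private theorem leave_notMem (f : Λ → ℕ → ℕ → ℕ) (β : Λ) (x : ℕ → ℕ) (N : ℕ) :
    leave f β x N ∉ MSet f β := by
  rintro ⟨k, hk⟩
  have h1 := hk (N + k)
  have h2 : leave f β x N (N + k) = f β k (N + k) + 1 := by
    simp [leave]
  rw [h2] at h1
  omega

private theorem leave_mem_cyl (f : Λ → ℕ → ℕ → ℕ) (β : Λ) {x : ℕ → ℕ} {N : ℕ} {s : List ℕ}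
    (hx : x ∈ cyl s) (hN : s.length ≤ N) : leave f β x N ∈ cyl s := by
  intro i v hv
  obtain ⟨hi, _⟩ := List.getElem?_eq_some_iff.1 hv
  have h1 : i < N := lt_of_lt_of_le hi hN
  have h2 : leave f β x N i = x i := by simp [leave, h1]
  rw [h2]
  exact hx i v hv

private theorem exists_mem_cyl (s : List ℕ) (d : ℕ) :
    ∃ x : ℕ → ℕ, x ∈ cyl s ∧ ∀ i, s.length ≤ i → x i = d := by
  refine ⟨fun i => (s[i]?).getD d, ?_, ?_⟩
  · intro i v hv
    simp [hv]
  · intro i hi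
    have : s[i]? = none := List.getElem?_eq_none hi
    simp [this]

/-- Basic sets are non-empty (indeed `M β` has dense complement). -/
theorem basic_nonempty (f : Λ → ℕ → ℕ → ℕ) (a : Code Λ) : (basic f a).Nonempty := by
  obtain ⟨x, hx, _⟩ := exists_mem_cyl a.1 0
  exact ⟨leave f a.2 x a.1.length, leave_mem_cyl f a.2 hx le_rfl, leave_notMem f a.2 x _⟩

/-- If a basic set is contained in a cylinder then so is its own cylinder. -/
theorem cyl_subset_of_basic_subset (f : Λ → ℕ → ℕ → ℕ) (a : Code Λ) (s : List ℕ)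
    (h : basic f a ⊆ cyl s) : cyl a.1 ⊆ cyl s := by
  intro r hr i v hv
  have h1 : leave f a.2 r (max a.1.length (i + 1)) ∈ basic f a :=
    ⟨leave_mem_cyl f a.2 hr (le_max_left _ _), leave_notMem f a.2 r _⟩
  have h2 := h h1 i v hv
  have h3 : leave f a.2 r (max a.1.length (i + 1)) i = r i := by
    have : i < max a.1.length (i + 1) := lt_of_lt_of_le (Nat.lt_succ_self i) (le_max_right _ _)
    simp [leave, this]
  rw [h3] at h2
  exact h2

/-- If a long cylinder is contained in a cylinder then its sequence is longer. -/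
theorem exists_append_of_cyl_subset (s t : List ℕ) (h : cyl t ⊆ cyl s) : ∃ w, t = s ++ w := by
  have hp : s <+: t := by
    rw [List.prefix_iff_getElem?]
    intro i hi
    have hv : s[i]? = some s[i] := List.getElem?_eq_getElem hi
    by_cases hit : i < t.length
    · obtain ⟨x, hx, _⟩ := exists_mem_cyl t 0
      have h1 := h hx i _ hv
      have h2 := hx i _ (List.getElem?_eq_getElem hit)
      rw [List.getElem?_eq_getElem hit, ← h2, h1]
    · obtain ⟨x, hx, hd⟩ := exists_mem_cyl t (s[i] + 1)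
      have h1 := h hx i _ hv
      have h2 := hd i (not_lt.1 hit)
      rw [h2] at h1
      omega
  obtain ⟨w, hw⟩ := hp
  exact ⟨w, hw.symm⟩

theorem isOpen_basic (f : Λ → ℕ → ℕ → ℕ) (a : Code Λ) : @IsOpen _ (space f) (basic f a) :=
  TopologicalSpace.isOpen_generateFrom_of_mem (Or.inl ⟨a, rfl⟩)

theorem isOpen_cyl (f : Λ → ℕ → ℕ → ℕ) (s : List ℕ) : @IsOpen _ (space f) (cyl s) :=
  TopologicalSpace.isOpen_generateFrom_of_mem (Or.inr ⟨s, rfl⟩)

variable [LinearOrder Λ]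

theorem MSet_mono (f : Λ → ℕ → ℕ → ℕ) (hf : Chain f) {β γ : Λ} (h : β ≤ γ) :
    MSet f β ⊆ MSet f γ := by
  rcases h.eq_or_lt with rfl | h
  · exact subset_rfl
  · rintro r ⟨k, hk⟩
    obtain ⟨k', hk'⟩ := hf β γ k h
    exact ⟨k', fun i => (hk i).trans (hk' i _ _ rfl rfl)⟩

/-- The basic sets and the cylinders form a base. -/
theorem space_basis (f : Λ → ℕ → ℕ → ℕ) (hf : Chain f) :
    @IsTopologicalBasis (ℕ → ℕ) (space f) (Set.range (basic f) ∪ Set.range cyl) := by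
  have key : ∀ B ∈ Set.range (basic f) ∪ Set.range cyl, ∀ x ∈ B,
      ∃ N, cyl (restr x N) ⊆ B ∨ ∃ β, x ∉ MSet f β ∧ cyl (restr x N) \ MSet f β ⊆ B := by
    rintro B (⟨a, rfl⟩ | ⟨s, rfl⟩) x hx
    · exact ⟨a.1.length, Or.inr ⟨a.2, hx.2, fun y hy => ⟨cyl_restr_subset hx.1 le_rfl hy.1, hy.2⟩⟩⟩
    · exact ⟨s.length, Or.inl (cyl_restr_subset hx le_rfl)⟩
  have mono : ∀ (x : ℕ → ℕ) (N N' : ℕ), N ≤ N' → cyl (restr x N') ⊆ cyl (restr x N) := by
    intro x N N' h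
    refine cyl_restr_subset (mem_cyl_restr x N) ?_
    simpa [restr] using h
  refine @IsTopologicalBasis.mk _ (space f) _ ?_ ?_ rfl
  · rintro B₁ h₁ B₂ h₂ x ⟨hx₁, hx₂⟩
    obtain ⟨N₁, e₁⟩ := key B₁ h₁ x hx₁
    obtain ⟨N₂, e₂⟩ := key B₂ h₂ x hx₂
    have m₁ := mono x N₁ (max N₁ N₂) (le_max_left _ _)
    have m₂ := mono x N₂ (max N₁ N₂) (le_max_right _ _)
    rcases e₁ with e₁ | ⟨β₁, n₁, e₁⟩ <;> rcases e₂ with e₂ | ⟨β₂, n₂, e₂⟩
    · exact ⟨_, Or.inr ⟨restr x (max N₁ N₂), rfl⟩, mem_cyl_restr x _,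
        fun y hy => ⟨e₁ (m₁ hy), e₂ (m₂ hy)⟩⟩
    · exact ⟨_, Or.inl ⟨(restr x (max N₁ N₂), β₂), rfl⟩, ⟨mem_cyl_restr x _, n₂⟩,
        fun y hy => ⟨e₁ (m₁ hy.1), e₂ ⟨m₂ hy.1, hy.2⟩⟩⟩
    · exact ⟨_, Or.inl ⟨(restr x (max N₁ N₂), β₁), rfl⟩, ⟨mem_cyl_restr x _, n₁⟩,
        fun y hy => ⟨e₁ ⟨m₁ hy.1, hy.2⟩, e₂ (m₂ hy.1)⟩⟩
    · refine ⟨_, Or.inl ⟨(restr x (max N₁ N₂), max β₁ β₂), rfl⟩, ⟨mem_cyl_restr x _, ?_⟩,
        fun y hy => ⟨e₁ ⟨m₁ hy.1, fun h => hy.2 (MSet_mono f hf (le_max_left _ _) h)⟩,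
          e₂ ⟨m₂ hy.1, fun h => hy.2 (MSet_mono f hf (le_max_right _ _) h)⟩⟩⟩
      rcases max_choice β₁ β₂ with h | h
      · rw [h]; exact n₁
      · rw [h]; exact n₂
  · rw [Set.eq_univ_iff_forall]
    intro x
    exact ⟨cyl [], Or.inr ⟨[], rfl⟩, fun i v hv => by simp at hv⟩

/-- Every non-empty open set contains a basic set. -/
theorem exists_basic_subset [Nonempty Λ] (f : Λ → ℕ → ℕ → ℕ) (hf : Chain f)
    (U : Set (ℕ → ℕ)) (hU : @IsOpen _ (space f) U) (hne : U.Nonempty) :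
    ∃ a, basic f a ⊆ U := by
  obtain ⟨x, hx⟩ := hne
  obtain ⟨B, hB, hxB, hBU⟩ :=
    @IsTopologicalBasis.exists_subset_of_mem_open _ (space f) _ (space_basis f hf) _ _ hx hU
  rcases hB with ⟨a, rfl⟩ | ⟨s, rfl⟩
  · exact ⟨a, hBU⟩
  · obtain ⟨β⟩ := ‹Nonempty Λ›
    exact ⟨(s, β), fun y hy => hBU hy.1⟩

theorem space_t2 [Nonempty Λ] (f : Λ → ℕ → ℕ → ℕ) (_hf : Chain f) :
    @T2Space (ℕ → ℕ) (space f) := by
  refine @T2Space.mk _ (space f) ?_
  intro x y hxy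
  obtain ⟨i, hi⟩ := Function.ne_iff.1 hxy
  refine ⟨cyl (restr x (i + 1)), cyl (restr y (i + 1)), isOpen_cyl f _, isOpen_cyl f _,
    mem_cyl_restr x _, mem_cyl_restr y _, ?_⟩
  rw [Set.disjoint_left]
  intro r h1 h2
  have e1 := h1 i (x i) (restr_get (Nat.lt_succ_self i))
  have e2 := h2 i (y i) (restr_get (Nat.lt_succ_self i))
  exact hi (e1.symm.trans e2)

end Pool.Agent.Helper85.BM
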