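import Pool.Agent.Helper85.BM.Topo

/-!
# Player II has no winning 2-tactic
-/

namespace Pool.Agent.Helper85.BM

open TopologicalSpace

variable {Λ : Type} [LinearOrder Λ]

/-- A non-empty open subset of a basic set contains a basic set with a longer sequence. -/
theorem exists_basic_append [Nonempty Λ] (f : Λ → ℕ → ℕ → ℕ) (hf : Chain f) (a : Code Λ)
    (V : Set (ℕ → ℕ)) (hV : @IsOpen _ (space f) V) (hne : V.Nonempty) (hsub : V ⊆ basic f a) :
    ∃ c : Code Λ, basic f (a.1 ++ c.1, c.2) ⊆ V := by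
  obtain ⟨t, htV⟩ := exists_basic_subset f hf V hV hne
  have h1 : basic f t ⊆ cyl a.1 := fun y hy => (hsub (htV hy)).1
  obtain ⟨w, hw⟩ := exists_append_of_cyl_subset _ _ (cyl_subset_of_basic_subset f t _ h1)
  refine ⟨(w, t.2), ?_⟩
  have h2 : ((a.1 ++ w, t.2) : Code Λ) = t := by
    rw [← hw]
  simpa [h2] using htV

theorem basic_subset_of_legal (f : Λ → ℕ → ℕ → ℕ) (hf : Chain f) {a c b : Code Λ}
    (h : Legal a c b) : basic f b ⊆ basic f (a.1 ++ c.1, c.2) := by
  obtain ⟨⟨w, _, hw⟩, _, h2⟩ := h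
  intro x hx
  refine ⟨?_, fun hM => hx.2 (MSet_mono f hf h2 hM)⟩
  have := hx.1
  rw [hw] at this
  exact cyl_append_subset _ _ this

theorem basic_isOpen (f : Λ → ℕ → ℕ → ℕ) (a : Code Λ) : @IsOpen _ (space f) (basic f a) :=
  isOpen_basic f a

theorem space_not_twoTactic (f : Λ → ℕ → ℕ → ℕ) (h : Principle Λ f) :
    ¬ @TwoTactic (ℕ → ℕ) (space f) := by
  obtain ⟨hf, hp⟩ := h
  rintro ⟨τ₀, τ, h0, h1, h2⟩
  have hΛ : Nonempty Λ := by
    obtain ⟨U, _⟩ := hp id (fun a _ => a)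
    exact ⟨(U 0).2⟩
  have e0 : ∀ a : Code Λ, ∃ c : Code Λ, basic f (a.1 ++ c.1, c.2) ⊆ τ₀ (basic f a) := by
    intro a
    obtain ⟨o, n, s⟩ := h0 (basic f a) (basic_isOpen f a) (basic_nonempty f a)
    exact exists_basic_append f hf a _ o n s
  have e1 : ∀ a b : Code Λ, ∃ c : Code Λ,
      basic f (b.1 ++ c.1, c.2) ⊆ τ (basic f a) (basic f b) := by
    intro a b
    obtain ⟨o, n, s⟩ := h1 (basic f a) (basic f b) (basic_isOpen f b) (basic_nonempty f b)
    exact exists_basic_append f hf b _ o n s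
  choose T0 hT0 using e0
  choose T hT using e1
  obtain ⟨U, β, k, l0, l1, l2, l3⟩ := hp T0 T
  have L1 : Legal (U 0) (T0 (U 0)) (U 1) := l1 _ _ _ rfl rfl rfl
  have L2 : ∀ n, Legal (U (n+1)) (T (U n) (U (n+1))) (U (n+2)) :=
    fun n => l2 n _ _ _ _ rfl rfl rfl rfl
  obtain ⟨x, hx⟩ := h2 (fun n => basic f (U n))
    (fun n => ⟨basic_isOpen f _, basic_nonempty f _⟩)
    ((basic_subset_of_legal f hf L1).trans (hT0 _))
    (fun n => (basic_subset_of_legal f hf (L2 n)).trans (hT _ _))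
  have hx' : ∀ n, x ∈ basic f (U n) := fun n => Set.mem_iInter.1 hx n
  have hlen1 : ∀ a c b : Code Λ, Legal a c b → a.1.length < b.1.length := by
    rintro a c b ⟨⟨w, hw0, hw⟩, _, _⟩
    have : 0 < w.length := List.length_pos_iff.2 hw0
    rw [hw]
    simp only [List.length_append]
    omega
  have hlen : ∀ n, n ≤ (U n).1.length := by
    intro n
    induction n with
    | zero => exact Nat.zero_le _
    | succ n ih =>
      cases n with
      | zero => exact lt_of_le_of_lt (Nat.zero_le _) (hlen1 _ _ _ L1)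
      | succ n => exact lt_of_le_of_lt ih (hlen1 _ _ _ (L2 n))
  refine (hx' 0).2 (MSet_mono f hf (l0 _ rfl) ⟨k, fun i => ?_⟩)
  have hi : i < (U (i+1)).1.length := lt_of_lt_of_le (Nat.lt_succ_self i) (hlen (i+1))
  have hv : (U (i+1)).1[i]? = some ((U (i+1)).1[i]) := List.getElem?_eq_getElem hi
  have hxi : x i = (U (i+1)).1[i] := (hx' (i+1)).1 i _ hv
  rw [hxi]
  exact l3 _ _ _ _ _ rfl hv rfl

end Pool.Agent.Helper85.BM
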