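import Pool.Agent.Helper85.BM.Topo

/-!
# Player II has a winning strategy
-/

namespace Pool.Agent.Helper85.BM

open TopologicalSpace

variable {Λ : Type} [LinearOrder Λ]

theorem space_secondWins [Nonempty Λ] (f : Λ → ℕ → ℕ → ℕ) (hf : Chain f) :
    @SecondWins (ℕ → ℕ) (space f) := by
  classical
  have hcode : ∀ U : Set (ℕ → ℕ), @IsOpen _ (space f) U → U.Nonempty →
      ∃ a : Code Λ, basic f a ⊆ U := by
    intro U hU hne
    obtain ⟨x, hx⟩ := hne
    obtain ⟨_, ⟨a, rfl⟩ | ⟨s, rfl⟩, _, haU⟩ :=
      @IsTopologicalBasis.exists_subset_of_mem_open _ (space f) _ (space_basis f hf) x U hx hU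
    · exact ⟨a, haU⟩
    · exact ⟨(s, Classical.arbitrary Λ), Set.sdiff_subset.trans haU⟩
  choose! code hcode using hcode
  have hopen : ∀ a : Code Λ, @IsOpen _ (space f) (basic f a) := fun a =>
    isOpen_generateFrom_of_mem (Or.inl ⟨a, rfl⟩)
  let big : (n : ℕ) → (Fin (n+1) → Set (ℕ → ℕ)) → ℕ → ℕ := fun n h p =>
    1 + ∑ j : Fin (n+1), ∑ k ∈ Finset.range (n+1), f (code (h j)).2 k p
  have hbig : ∀ (n : ℕ) (h : Fin (n+1) → Set (ℕ → ℕ)) (p : ℕ) (j : Fin (n+1)) (k : ℕ),
      k ≤ n → f (code (h j)).2 k p < big n h p := by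
    intro n h p j k hk
    have h1 : f (code (h j)).2 k p ≤ ∑ k ∈ Finset.range (n+1), f (code (h j)).2 k p :=
      Finset.single_le_sum (f := fun k => f (code (h j)).2 k p) (fun _ _ => Nat.zero_le _)
        (Finset.mem_range.2 (Nat.lt_succ_of_le hk))
    have h2 : ∑ k ∈ Finset.range (n+1), f (code (h j)).2 k p ≤
        ∑ j : Fin (n+1), ∑ k ∈ Finset.range (n+1), f (code (h j)).2 k p :=
      Finset.single_le_sum (f := fun j => ∑ k ∈ Finset.range (n+1), f (code (h j)).2 k p)
        (fun _ _ => Nat.zero_le _) (Finset.mem_univ j)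
    have h3 : big n h p = 1 + ∑ j : Fin (n+1), ∑ k ∈ Finset.range (n+1), f (code (h j)).2 k p :=
      rfl
    omega
  let ext : (n : ℕ) → (Fin (n+1) → Set (ℕ → ℕ)) → List ℕ := fun n h =>
    (code (h (Fin.last n))).1 ++
      (big n h (code (h (Fin.last n))).1.length :: List.replicate n 0)
  refine ⟨fun n h => basic f (ext n h, (code (h (Fin.last n))).2), ?_, ?_⟩
  · intro n h ho hne
    refine ⟨hopen _, basic_nonempty f _, ?_⟩
    refine Set.Subset.trans ?_ (hcode _ ho hne)
    exact Set.sdiff_subset_sdiff_left (cyl_append_subset _ _)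
  · intro U hU hrun
    let h : (n : ℕ) → Fin (n+1) → Set (ℕ → ℕ) := fun n i => U i.val
    have hlast : ∀ n, h n (Fin.last n) = U n := fun n => rfl
    let t : ℕ → List ℕ := fun n => ext n (h n)
    have hrun' : ∀ n, U (n+1) ⊆ basic f (t n, (code (U n)).2) := hrun
    have hstep : ∀ n, ∃ w, t (n+1) = t n ++ w := by
      intro n
      have h1 : basic f (code (U (n+1))) ⊆ cyl (t n) :=
        (hcode _ (hU (n+1)).1 (hU (n+1)).2).trans ((hrun' n).trans Set.sdiff_subset)
      obtain ⟨w, hw⟩ := exists_append_of_cyl_subset _ _ (cyl_subset_of_basic_subset f _ _ h1)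
      have h2 : t (n+1) = (code (U (n+1))).1 ++
        (big (n+1) (h (n+1)) (code (U (n+1))).1.length :: List.replicate (n+1) 0) := rfl
      rw [h2, hw, List.append_assoc]
      exact ⟨_, rfl⟩
    have hle : ∀ m n, m ≤ n → ∃ w, t n = t m ++ w := by
      intro m n hmn
      induction n, hmn using Nat.le_induction with
      | base => exact ⟨[], (List.append_nil _).symm⟩
      | succ n _ ih =>
        obtain ⟨w, hw⟩ := ih
        obtain ⟨w', hw'⟩ := hstep n
        exact ⟨w ++ w', by rw [hw', hw, List.append_assoc]⟩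
    have hlen : ∀ n, n < (t n).length := by
      intro n
      have h2 : t n = (code (U n)).1 ++
        (big n (h n) (code (U n)).1.length :: List.replicate n 0) := rfl
      rw [h2, List.length_append, List.length_cons, List.length_replicate]
      omega
    let r : ℕ → ℕ := fun i => ((t i)[i]?).getD 0
    have hr : ∀ n, r ∈ cyl (t n) := by
      intro n i v hv
      have hi : i < (t n).length := by
        by_contra hcon
        rw [List.getElem?_eq_none (not_lt.1 hcon)] at hv
        exact absurd hv (by simp)
      have h1 : (t i)[i]? = some v := by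
        rcases le_total i n with hin | hin
        · obtain ⟨w, hw⟩ := hle i n hin
          rw [hw, List.getElem?_append_left (hlen i)] at hv
          exact hv
        · obtain ⟨w, hw⟩ := hle n i hin
          rw [hw, List.getElem?_append_left hi]
          exact hv
      change ((t i)[i]?).getD 0 = v
      rw [h1]
      rfl
    refine ⟨r, Set.mem_iInter.2 fun n => ?_⟩
    refine hcode _ (hU n).1 (hU n).2 ⟨?_, ?_⟩
    · have h2 : t n = (code (U n)).1 ++
        (big n (h n) (code (U n)).1.length :: List.replicate n 0) := rfl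
      have h3 := hr n
      rw [h2] at h3
      exact cyl_append_subset _ _ h3
    · rintro ⟨k, hk⟩
      -- the stage at which the function number `k` is left
      let N := max n k
      have hN : t N = (code (U N)).1 ++
        (big N (h N) (code (U N)).1.length :: List.replicate N 0) := rfl
      have h1 := hr N (code (U N)).1.length (big N (h N) (code (U N)).1.length) (by
        rw [hN, List.getElem?_append_right le_rfl, Nat.sub_self]
        rfl)
      have h2 := hbig N (h N) (code (U N)).1.length ⟨n, Nat.lt_succ_of_le (le_max_left n k)⟩ k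
        (le_max_right n k)
      have h3 := hk (code (U N)).1.length
      rw [h1] at h3
      exact absurd h2 (not_lt.2 h3)

end Pool.Agent.Helper85.BM
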